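import Pool.Agent.W2helper39.BU.Rnc

set_option autoImplicit false
set_option linter.unusedSectionVars false

/-!
# Balancing at a given cost with respect to every offset
-/

namespace Pool.Agent.W2helper39.BU

open Finset Matrix Module
open Pool.Agent.Helper976.Bal

variable {ι : Type*} [Fintype ι] [DecidableEq ι]
variable {E : Type*} [NormedAddCommGroup E] [InnerProductSpace ℝ E]

/-- the vectors `v i`, `i ∈ T`, can be balanced at the cost `p` for every offset `w` -/
def Bal (v : ι → E) (T : Finset ι) (p : ℝ) : Prop :=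
  ∀ w : E, ∃ η : ι → ℝ, (∀ i, η i = 1 ∨ η i = -1) ∧
    ‖w + ∑ i ∈ T, η i • v i‖ ^ 2 ≤ ‖w‖ ^ 2 + p

lemma bal_of_low {v : ι → E} {T : Finset ι} {p : ℝ}
    (h : ∀ (w : E) (R : ℝ), Low T v w R → R ≤ ‖w‖ ^ 2 + p) : Bal v T p := by
  intro w
  obtain ⟨ε, hε⟩ := Finite.exists_min
    (fun ε : ι → Bool => ‖w + ∑ i ∈ T, (if ε i then (1 : ℝ) else -1) • v i‖ ^ 2)
  refine ⟨fun i => if ε i then (1 : ℝ) else -1, fun i => ?_, h w _ fun η hη => ?_⟩
  · by_cases h : ε i <;> simp [h]
  · have h1 := hε (fun i => decide (η i = 1))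
    have e : ∀ i, (if (decide (η i = 1)) = true then (1 : ℝ) else -1) = η i := by
      intro i
      rcases hη i with h | h
      · simp [h]
      · rw [h]; norm_num
    simp only [e] at h1
    exact h1

lemma Bal.mono {v : ι → E} {T : Finset ι} {p q : ℝ} (h : Bal v T p) (hpq : p ≤ q) :
    Bal v T q := by
  intro w
  obtain ⟨η, hη, h1⟩ := h w
  exact ⟨η, hη, by linarith⟩

lemma bal_empty (v : ι → E) : Bal v ∅ 0 := fun w => ⟨fun _ => 1, fun _ => Or.inl rfl, by simp⟩

lemma Bal.union {v : ι → E} {T T' : Finset ι} {p p' : ℝ} (h : Bal v T p) (h' : Bal v T' p')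
    (hd : Disjoint T T') : Bal v (T ∪ T') (p + p') := by
  intro w
  obtain ⟨η, hη, h1⟩ := h w
  obtain ⟨η', hη', h2⟩ := h' (w + ∑ i ∈ T, η i • v i)
  refine ⟨fun i => if i ∈ T' then η' i else η i, fun i => ?_, ?_⟩
  · by_cases hi : i ∈ T'
    · simpa [hi] using hη' i
    · simpa [hi] using hη i
  · rw [sum_union hd]
    have e1 : ∑ i ∈ T, (if i ∈ T' then η' i else η i) • v i = ∑ i ∈ T, η i • v i := by
      refine sum_congr rfl fun i hi => ?_
      rw [if_neg (fun h => disjoint_left.1 hd hi h)]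
    have e2 : ∑ i ∈ T', (if i ∈ T' then η' i else η i) • v i = ∑ i ∈ T', η' i • v i :=
      sum_congr rfl fun i hi => by rw [if_pos hi]
    rw [e1, e2, ← add_assoc]
    linarith

lemma bal_biUnion {κ : Type*} [DecidableEq κ] {v : ι → E} {T : κ → Finset ι} {p : κ → ℝ}
    (hT : ∀ k l, k ≠ l → Disjoint (T k) (T l)) (h : ∀ k, Bal v (T k) (p k)) (K : Finset κ) :
    Bal v (K.biUnion T) (∑ k ∈ K, p k) := by
  induction K using Finset.induction_on with
  | empty => simpa using bal_empty v
  | insert a K ha ih =>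
    rw [biUnion_insert, sum_insert ha]
    refine (h a).union ih ?_
    rw [disjoint_biUnion_right]
    intro k hk
    exact hT a k (fun e => ha (e ▸ hk))

/-- the cost of the spectrum -/
theorem bal_spec {v : ι → E} (hv : ∀ i, ‖v i‖ = 1) (P : ι → Prop) [DecidablePred P] :
    Bal v (univ.filter P) (∑ j, min 1 ((isHermitian_gram ℝ
      (fun i : {i // P i} => v i)).eigenvalues j)) := by
  obtain ⟨x, hx, hxs⟩ := spec_point (fun i : {i // P i} => v i)
  refine bal_of_low fun w R h => ?_
  set N := univ.filter P with hN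
  have hNmem : ∀ i, i ∈ N ↔ P i := by intro i; simp [hN]
  have key : ∀ σ : ℝ, (σ = 1 ∨ σ = -1) →
      R ≤ ‖w + σ • ∑ i : {i // P i}, x i • v i‖ ^ 2 + ∑ i : {i // P i}, (1 - x i ^ 2) := by
    intro σ hσ
    have hσ2 : σ ^ 2 = 1 := by rcases hσ with h | h <;> rw [h] <;> norm_num
    have hσa : |σ| = 1 := by rcases hσ with h | h <;> rw [h] <;> norm_num
    have h2 := low_round v (fun i => if h : P i then σ * x ⟨i, h⟩ else 0) R N (by
      intro i _
      by_cases h : P i
      · simp only [h, dif_pos]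
        rw [abs_mul, hσa, one_mul]
        exact hx _
      · rw [dif_neg h]; simp) w h
    have e1 : ∑ i ∈ N, (if h : P i then σ * x ⟨i, h⟩ else 0) • v i =
        σ • ∑ i : {i // P i}, x i • v i := by
      rw [sum_subtype N hNmem, smul_sum]
      refine sum_congr rfl fun i _ => ?_
      rw [dif_pos i.2, smul_smul]
    have e2 : ∑ i ∈ N, (1 - (if h : P i then σ * x ⟨i, h⟩ else 0) ^ 2) * ‖v i‖ ^ 2 =
        ∑ i : {i // P i}, (1 - x i ^ 2) := by
      rw [sum_subtype N hNmem]
      refine sum_congr rfl fun i _ => ?_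
      rw [dif_pos i.2, hv, mul_pow, hσ2]
      ring
    rw [e1, e2] at h2
    exact h2
  have k1 := key 1 (Or.inl rfl)
  have k2 := key (-1) (Or.inr rfl)
  rw [one_smul] at k1
  rw [neg_one_smul, ← sub_eq_add_neg] at k2
  have hpl := parallelogram_law_with_norm ℝ w (∑ i : {i // P i}, x i • v i)
  nlinarith [hpl, k1, k2, hxs]

/-- the cost of a homogeneous form -/
theorem bal_form {v : ι → E} (hv : ∀ i, ‖v i‖ = 1) {T : Finset ι} {c : Finset ι → ℝ} {m : ℕ}
    (hc : ∀ A : Finset ι, A.card ≠ m → c A = 0) (h1 : ∑ A ∈ T.powerset, c A ^ 2 = 1) :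
    Bal v T ((T.card : ℝ) - 2 * m + 2 * ∑ B ∈ T.powerset, ‖con v T c B‖ ^ 2) :=
  bal_of_low fun _ _ h => low_form hv hc h1 h

/-- without normalization, for forms whose contraction vanishes -/
theorem bal_form0 {v : ι → E} (hv : ∀ i, ‖v i‖ = 1) {T : Finset ι} {c : Finset ι → ℝ} {m : ℕ}
    (hc : ∀ A : Finset ι, A.card ≠ m → c A = 0) (h1 : 0 < ∑ A ∈ T.powerset, c A ^ 2)
    (h0 : ∀ B ⊆ T, con v T c B = 0) : Bal v T ((T.card : ℝ) - 2 * m) := by
  set s := Real.sqrt (∑ A ∈ T.powerset, c A ^ 2) with hs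
  have hs2 : s ^ 2 = ∑ A ∈ T.powerset, c A ^ 2 := Real.sq_sqrt h1.le
  have h := bal_form hv (T := T) (c := fun A => s⁻¹ * c A) (m := m)
    (fun A hA => by rw [hc A hA, mul_zero]) (by
      simp only [mul_pow]
      rw [← mul_sum, ← hs2, inv_pow, inv_mul_cancel₀]
      rw [hs2]; exact h1.ne')
  have h2 : ∑ B ∈ T.powerset, ‖con v T (fun A => s⁻¹ * c A) B‖ ^ 2 = 0 := by
    refine sum_eq_zero fun B hB => ?_
    have : con v T (fun A => s⁻¹ * c A) B = s⁻¹ • con v T c B := by
      unfold con
      rw [smul_sum]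
      exact sum_congr rfl fun i _ => by rw [smul_smul]
    rw [this, h0 B (mem_powerset.1 hB)]
    simp
  rw [h2] at h
  simpa using h

/-- the cost of an arbitrary block -/
lemma bal_card {v : ι → E} (hv : ∀ i, ‖v i‖ = 1) (T : Finset ι) : Bal v T T.card := by
  refine bal_of_low fun w R h => ?_
  have h2 := low_round v (fun _ => 0) R T (fun i _ => by simp) w h
  simp [hv] at h2
  exact h2

/-- the cost of a dependent block -/
theorem bal_dep {v : ι → E} (hv : ∀ i, ‖v i‖ = 1) {T : Finset ι}
    (hd : ¬ LinearIndependent ℝ (fun i : T => v i)) : Bal v T ((T.card : ℝ) - 2) := by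
  rw [Fintype.not_linearIndependent_iff] at hd
  obtain ⟨g, hg, i₀, hi₀⟩ := hd
  set y : ι → ℝ := fun i => if h : i ∈ T then g ⟨i, h⟩ else 0 with hy
  have hsum : ∑ i ∈ T, y i • v i = 0 := by
    rw [← hg, ← sum_coe_sort T]
    exact sum_congr rfl fun i _ => by simp [hy]
  have hpos : 0 < ∑ i ∈ T, y i ^ 2 := by
    refine lt_of_lt_of_le (by positivity : 0 < g i₀ ^ 2) ?_
    have := single_le_sum (f := fun i => y i ^ 2) (fun _ _ => sq_nonneg _) i₀.2
    simpa [hy] using this
  refine bal_of_low fun w R h => ?_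
  have h2 := low_quad v y R T w 0 h
  have e3 : ∑ i ∈ T, ‖v i‖ ^ 2 = T.card := by
    rw [sum_congr rfl (fun i _ => by rw [hv i])]
    simp
  have e4 : ∑ i ∈ T, y i ^ 2 * ‖v i‖ ^ 2 = ∑ i ∈ T, y i ^ 2 :=
    sum_congr rfl fun i _ => by rw [hv i]; ring
  rw [hsum, e3, e4] at h2
  simp only [norm_zero] at h2
  have h3 : R * ∑ i ∈ T, y i ^ 2 ≤ (‖w‖ ^ 2 + ((T.card : ℝ) - 2)) * ∑ i ∈ T, y i ^ 2 := by
    nlinarith [h2]
  exact le_of_mul_le_mul_right h3 hpos

/-- parallel vectors -/
lemma dep_pair {v : ι → E} {i j : ι} (hij : i ≠ j) {a b : ℝ} (hab : a ≠ 0 ∨ b ≠ 0)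
    (h : a • v i + b • v j = 0) :
    ¬ LinearIndependent ℝ (fun k : ({i, j} : Finset ι) => v k) := by
  rw [Fintype.not_linearIndependent_iff]
  refine ⟨fun k => if (k : ι) = i then a else b, ?_, ?_⟩
  · rw [sum_coe_sort ({i, j} : Finset ι) (fun k => (if k = i then a else b) • v k),
      sum_pair hij, if_pos rfl, if_neg (Ne.symm hij)]
    exact h
  · rcases hab with h | h
    · exact ⟨⟨i, by simp⟩, by simpa using h⟩
    · exact ⟨⟨j, by simp⟩, by simpa [Ne.symm hij] using h⟩

lemma mom_smul {D : ℕ} (l x y : ℝ) : mom D (l * x) (l * y) = l ^ (D - 1) • mom D x y := by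
  ext k
  have hk : (k : ℕ) ≤ D - 1 := by have := k.2; omega
  simp only [mom, Pi.smul_apply, smul_eq_mul, mul_pow]
  have : l ^ (D - 1) = l ^ (D - 1 - (k : ℕ)) * l ^ (k : ℕ) := by
    rw [← pow_add]; congr 1; omega
  rw [this]; ring

lemma mom_zero {D : ℕ} (hD : 2 ≤ D) : mom D 0 0 = 0 := by
  have := mom_smul (D := D) 0 0 0
  simp only [zero_mul] at this
  rw [this, zero_pow (by omega), zero_smul]

/-- **The cost of vectors on a rational normal curve.** -/
theorem bal_rnc {v : ι → E} {D : ℕ} (hD : 1 ≤ D) (hv : ∀ i, ‖v i‖ = 1)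
    {s t γ : ι → ℝ} (M : (Fin D → ℝ) →ₗ[ℝ] E) :
    ∀ T : Finset ι, (∀ i ∈ T, v i = γ i • M (mom D (s i) (t i))) → Odd (T.card + D) →
      Bal v T ((D : ℝ) - 1) := by
  intro T
  induction T using Finset.strongInduction with
  | H T ih =>
    intro hT hodd
    by_cases hsmall : T.card + 1 ≤ D
    · refine (bal_card hv T).mono ?_
      have : ((T.card : ℝ) + 1) ≤ D := by exact_mod_cast hsmall
      linarith
    push Not at hsmall
    have hγ : ∀ i ∈ T, γ i ≠ 0 := by
      intro i hi h
      have h1 := hv i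
      rw [hT i hi, h, zero_smul, norm_zero] at h1
      exact zero_ne_one h1
    by_cases hbr : ∀ i ∈ T, ∀ j ∈ T, i ≠ j → br s t i j ≠ 0
    · obtain ⟨m, hm⟩ : ∃ m, T.card + 1 = D + 2 * m := by
        obtain ⟨q, hq⟩ := hodd
        exact ⟨q + 1 - D, by omega⟩
      have h := bal_form0 hv (T := T) (c := cc s t γ T m) (m := m)
        (fun A hA => by rw [cc, if_neg hA]) (cc_ne hγ hbr (by omega))
        (fun B hB => cc_con (by omega) M hT hγ hbr hm hB)
      refine h.mono ?_
      have : (T.card : ℝ) + 1 = D + 2 * m := by exact_mod_cast hm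
      linarith
    · push Not at hbr
      obtain ⟨i, hi, j, hj, hij, h0⟩ := hbr
      -- the vectors `v i` and `v j` are parallel
      obtain ⟨l, hvj⟩ : ∃ l : ℝ, v j = l • M (mom D (s i) (t i)) := by
        rcases Nat.lt_or_ge 1 D with hD2 | hD1
        · have hne : s i ≠ 0 ∨ t i ≠ 0 := by
            by_contra h
            push Not at h
            have h1 := hv i
            rw [hT i hi, h.1, h.2, mom_zero hD2, map_zero, smul_zero, norm_zero] at h1
            exact zero_ne_one h1
          obtain ⟨l, hl1, hl2⟩ : ∃ l : ℝ, s j = l * s i ∧ t j = l * t i := by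
            unfold br at h0
            rcases hne with h | h
            · refine ⟨s j / s i, by field_simp, ?_⟩
              field_simp
              linarith
            · refine ⟨t j / t i, ?_, by field_simp⟩
              field_simp
              linarith
          exact ⟨γ j * l ^ (D - 1), by rw [hT j hj, hl1, hl2, mom_smul, map_smul, smul_smul]⟩
        · refine ⟨γ j, ?_⟩
          rw [hT j hj]
          congr 2
          ext k
          have := k.2
          have hk : (k : ℕ) = 0 := by omega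
          have hD0 : D - 1 - (k : ℕ) = 0 := by omega
          simp only [mom, hk, pow_zero, mul_one]
          rw [show D - 1 - 0 = 0 by omega, pow_zero, pow_zero]
      have hdep : ¬ LinearIndependent ℝ (fun k : ({i, j} : Finset ι) => v k) := by
        refine dep_pair hij (a := l) (b := -γ i) (Or.inr ?_) ?_
        · exact neg_ne_zero.2 (hγ i hi)
        · rw [hvj, hT i hi, smul_smul, smul_smul, ← add_smul]
          rw [show l * γ i + -γ i * l = 0 by ring, zero_smul]
      have hsub : ({i, j} : Finset ι) ⊆ T := by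
        intro k hk
        simp only [mem_insert, mem_singleton] at hk
        rcases hk with rfl | rfl <;> assumption
      have hcp : ({i, j} : Finset ι).card = 2 := card_pair hij
      have hcard : (T \ {i, j}).card + 2 = T.card := by
        rw [← hcp]; exact card_sdiff_add_card_eq_card hsub
      have hss : T \ {i, j} ⊂ T := by
        refine ⟨sdiff_subset, fun h => ?_⟩
        have := card_le_card h
        omega
      have h1 := ih (T \ {i, j}) hss (fun k hk => hT k (mem_sdiff.1 hk).1) (by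
        obtain ⟨q, hq⟩ := hodd
        exact ⟨q - 1, by omega⟩)
      have h2 := bal_dep hv hdep
      have h3 := h1.union h2 sdiff_disjoint
      rw [sdiff_union_of_subset hsub] at h3
      refine h3.mono ?_
      rw [hcp]
      norm_num

/-- the set of families which can be balanced at the cost `p` is closed -/
lemma isClosed_bal (T : Finset ι) (p : ℝ) : IsClosed {u : ι → E | Bal u T p} := by
  have : {u : ι → E | Bal u T p} = ⋂ w : E, ⋃ ε : ι → Bool,
      {u : ι → E | ‖w + ∑ i ∈ T, (if ε i then (1 : ℝ) else -1) • u i‖ ^ 2 ≤ ‖w‖ ^ 2 + p} := by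
    ext u
    simp only [Set.mem_ofPred_eq, Set.mem_iInter, Set.mem_iUnion]
    constructor
    · intro h w
      obtain ⟨η, hη, h1⟩ := h w
      refine ⟨fun i => decide (η i = 1), ?_⟩
      have e : ∀ i, (if (decide (η i = 1)) = true then (1 : ℝ) else -1) = η i := by
        intro i
        rcases hη i with h | h
        · simp [h]
        · rw [h]; norm_num
      simp only [e]
      exact h1
    · intro h w
      obtain ⟨ε, hε⟩ := h w
      exact ⟨fun i => if ε i then (1 : ℝ) else -1, fun i => by by_cases h : ε i <;> simp [h], hε⟩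
  rw [this]
  refine isClosed_iInter fun w => isClosed_iUnion_of_finite fun ε => ?_
  refine isClosed_le ?_ continuous_const
  fun_prop

/-- the vectors `v i`, `i ∈ T`, lie on the cone over a rational normal curve -/
def OnCurve (v : ι → E) (T : Finset ι) (D : ℕ) : Prop :=
  ∃ (s t γ : ι → ℝ) (M : (Fin D → ℝ) →ₗ[ℝ] E), ∀ i ∈ T,
    v i = γ i • M (fun k => s i ^ (D - 1 - (k : ℕ)) * t i ^ (k : ℕ))

/-- **The cost of limits of families on a rational normal curve.** -/
theorem bal_curve {v : ι → E} {D : ℕ} (hD : 1 ≤ D) {T : Finset ι} (hodd : Odd (T.card + D))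
    (hv : v ∈ closure {u : ι → E | (∀ i, ‖u i‖ = 1) ∧ OnCurve u T D}) :
    Bal v T ((D : ℝ) - 1) := by
  refine closure_minimal ?_ (isClosed_bal T ((D : ℝ) - 1)) hv
  rintro u ⟨hu, s, t, γ, M, h⟩
  exact bal_rnc hD hu M T h hodd

end Pool.Agent.W2helper39.BU
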