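import Pool.Agent.W2helper39.BU.Form

set_option autoImplicit false
set_option linter.unusedSectionVars false

/-!
# The average with the weight given by a homogeneous form
-/

namespace Pool.Agent.W2helper39.BU

open Finset
open Pool.Agent.Helper976.Bal

variable {ι : Type*} [DecidableEq ι]
variable {E : Type*} [NormedAddCommGroup E] [InnerProductSpace ℝ E]

lemma norm_sum_sq (S : Finset ι) (f : ι → ℝ) (v : ι → E) :
    ‖∑ i ∈ S, f i • v i‖ ^ 2 = ∑ i ∈ S, ∑ j ∈ S, f i * f j * inner ℝ (v i) (v j) := by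
  rw [← real_inner_self_eq_norm_sq, sum_inner]
  refine sum_congr rfl fun i _ => ?_
  rw [inner_sum]
  refine sum_congr rfl fun j _ => ?_
  rw [inner_smul_left, inner_smul_right]
  simp
  ring

lemma swap3 (T : Finset ι) (p : Finset ι → ι → Prop) [∀ C i, Decidable (p C i)]
    (S : Finset ι → Finset ι) (hS : ∀ C ∈ T.powerset, ∀ i, i ∈ S C ↔ i ∈ T ∧ p C i)
    (F : Finset ι → ι → ι → ℝ) :
    ∑ C ∈ T.powerset, ∑ i ∈ S C, ∑ j ∈ S C, F C i j =
      ∑ i ∈ T, ∑ j ∈ T, ∑ C ∈ T.powerset with p C i ∧ p C j, F C i j := by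
  rw [sum_comm' (t' := T) (s' := fun i => T.powerset.filter fun C => p C i)]
  · refine sum_congr rfl fun i hi => ?_
    rw [sum_comm' (t' := T) (s' := fun j => T.powerset.filter fun C => p C i ∧ p C j)]
    intro C j
    constructor
    · rintro ⟨hC, hj⟩
      rw [mem_filter] at hC
      have := (hS C hC.1 j).1 hj
      exact ⟨mem_filter.2 ⟨hC.1, hC.2, this.2⟩, this.1⟩
    · rintro ⟨hC, hj⟩
      rw [mem_filter] at hC
      exact ⟨mem_filter.2 ⟨hC.1, hC.2.1⟩, (hS C hC.1 j).2 ⟨hj, hC.2.2⟩⟩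
  · intro C i
    constructor
    · rintro ⟨hC, hi⟩
      have := (hS C hC i).1 hi
      exact ⟨mem_filter.2 ⟨hC, this.2⟩, this.1⟩
    · rintro ⟨hC, hi⟩
      rw [mem_filter] at hC
      exact ⟨hC.1, (hS C hC.1 i).2 ⟨hi, hC.2⟩⟩

lemma swap2 (T : Finset ι) (p : Finset ι → ι → Prop) [∀ C i, Decidable (p C i)]
    (S : Finset ι → Finset ι) (hS : ∀ C ∈ T.powerset, ∀ i, i ∈ S C ↔ i ∈ T ∧ p C i)
    (F : Finset ι → ℝ) :
    ∑ i ∈ T, ∑ C ∈ T.powerset with p C i, F C = ∑ C ∈ T.powerset, ((S C).card : ℝ) * F C := by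
  have : ∑ C ∈ T.powerset, ((S C).card : ℝ) * F C = ∑ C ∈ T.powerset, ∑ _i ∈ S C, F C := by
    refine sum_congr rfl fun C _ => ?_
    rw [sum_const, nsmul_eq_mul]
  rw [this, sum_comm' (t' := T) (s' := fun i => T.powerset.filter fun C => p C i)]
  intro C i
  constructor
  · rintro ⟨hC, hi⟩
    have := (hS C hC i).1 hi
    exact ⟨mem_filter.2 ⟨hC, this.2⟩, this.1⟩
  · rintro ⟨hC, hi⟩
    rw [mem_filter] at hC
    exact ⟨hC.1, (hS C hC.1 i).2 ⟨hi, hC.2⟩⟩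

lemma comm_id {v : ι → E} (hv : ∀ i, ‖v i‖ = 1) (T : Finset ι) {c : Finset ι → ℝ} {m : ℕ}
    (hc : ∀ A : Finset ι, A.card ≠ m → c A = 0) :
    ∑ C ∈ T.powerset, ‖∑ i ∈ C, c (C.erase i) • v i‖ ^ 2 =
      ∑ C ∈ T.powerset, ‖con v T c C‖ ^ 2 +
        ((T.card : ℝ) - 2 * m) * ∑ C ∈ T.powerset, c C ^ 2 := by
  have hM : ∑ C ∈ T.powerset, ‖∑ i ∈ C, c (C.erase i) • v i‖ ^ 2 =
      ∑ i ∈ T, ∑ j ∈ T, (∑ C ∈ T.powerset with i ∈ C ∧ j ∈ C,
        c (C.erase i) * c (C.erase j)) * inner ℝ (v i) (v j) := by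
    simp only [norm_sum_sq]
    rw [swap3 T (fun C i => i ∈ C) (fun C => C)]
    · simp only [sum_mul]
    · intro C hC i
      exact ⟨fun h => ⟨mem_powerset.1 hC h, h⟩, fun h => h.2⟩
  have hP : ∑ C ∈ T.powerset, ‖con v T c C‖ ^ 2 =
      ∑ i ∈ T, ∑ j ∈ T, (∑ C ∈ T.powerset with i ∉ C ∧ j ∉ C,
        c (insert i C) * c (insert j C)) * inner ℝ (v i) (v j) := by
    simp only [con, norm_sum_sq]
    rw [swap3 T (fun C i => i ∉ C) (fun C => T \ C)]
    · simp only [sum_mul]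
    · intro C hC i
      exact mem_sdiff
  have hrow : ∀ i ∈ T, ∑ j ∈ T, (∑ C ∈ T.powerset with i ∈ C ∧ j ∈ C,
        c (C.erase i) * c (C.erase j)) * inner ℝ (v i) (v j) =
      ∑ j ∈ T, (∑ C ∈ T.powerset with i ∉ C ∧ j ∉ C,
        c (insert i C) * c (insert j C)) * inner ℝ (v i) (v j) +
      (∑ C ∈ T.powerset with i ∉ C, c C ^ 2 - ∑ C ∈ T.powerset with i ∈ C, c C ^ 2) := by
    intro i hi
    rw [← add_sum_erase T _ hi, ← add_sum_erase T (fun j => (∑ C ∈ T.powerset with i ∉ C ∧ j ∉ C,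
        c (insert i C) * c (insert j C)) * inner ℝ (v i) (v j)) hi]
    have hoff : ∑ j ∈ T.erase i, (∑ C ∈ T.powerset with i ∈ C ∧ j ∈ C,
        c (C.erase i) * c (C.erase j)) * inner ℝ (v i) (v j) =
        ∑ j ∈ T.erase i, (∑ C ∈ T.powerset with i ∉ C ∧ j ∉ C,
        c (insert i C) * c (insert j C)) * inner ℝ (v i) (v j) := by
      refine sum_congr rfl fun j hj => ?_
      rw [mem_erase] at hj
      rw [off_diag c hi hj.2 (Ne.symm hj.1)]
    rw [hoff]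
    have hn : inner ℝ (v i) (v i) = (1 : ℝ) := by
      rw [real_inner_self_eq_norm_sq, hv i]; norm_num
    simp only [and_self, hn, mul_one, ← sq]
    rw [diag1 c hi, diag2 c hi]
    ring
  rw [hM, hP, sum_congr rfl hrow, sum_add_distrib, sum_sub_distrib]
  congr 1
  rw [swap2 T (fun C i => i ∉ C) (fun C => T \ C) (fun C _ i => mem_sdiff) (fun C => c C ^ 2),
    swap2 T (fun C i => i ∈ C) (fun C => C)
      (fun C hC i => ⟨fun h => ⟨mem_powerset.1 hC h, h⟩, fun h => h.2⟩) (fun C => c C ^ 2),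
    ← sum_sub_distrib, mul_sum]
  refine sum_congr rfl fun C hC => ?_
  by_cases h : C.card = m
  · have h1 : (T \ C).card + C.card = T.card := card_sdiff_add_card_eq_card (mem_powerset.1 hC)
    have h2 : ((T \ C).card : ℝ) = T.card - C.card := by
      rw [← h1]; push_cast; ring
    rw [h2, h]
    ring
  · rw [hc C h]; ring

/-- **Averaging with the weight `h²`**, `h` a homogeneous form of degree `m` in the signs. -/
theorem low_form {v : ι → E} (hv : ∀ i, ‖v i‖ = 1) {T : Finset ι} {c : Finset ι → ℝ} {m : ℕ}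
    (hc : ∀ A : Finset ι, A.card ≠ m → c A = 0) (h1 : ∑ A ∈ T.powerset, c A ^ 2 = 1)
    {w : E} {R : ℝ} (h : Low T v w R) :
    R ≤ ‖w‖ ^ 2 + ((T.card : ℝ) - 2 * m + 2 * ∑ B ∈ T.powerset, ‖con v T c B‖ ^ 2) := by
  have h2 := low_char v R T w c h
  rw [h1, mul_one] at h2
  have h3 : ∑ C ∈ T.powerset, ‖c C • w + ∑ i ∈ T, c (tg C i) • v i‖ ^ 2 =
      ‖w‖ ^ 2 + ∑ C ∈ T.powerset, ‖con v T c C‖ ^ 2 +
        ∑ C ∈ T.powerset, ‖∑ i ∈ C, c (C.erase i) • v i‖ ^ 2 := by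
    rw [sum_congr rfl (fun C hC => norm_split v (mem_powerset.1 hC) hc w), sum_add_distrib,
      sum_add_distrib, ← sum_mul, h1, one_mul]
  rw [h3, comm_id hv T hc, h1] at h2
  linarith

end Pool.Agent.W2helper39.BU
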