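import Pool.Agent.W2helper39.BU.Bal

set_option autoImplicit false
set_option linter.unusedSectionVars false

/-!
# Vectors on a quadratic cone of a three-dimensional space
-/

namespace Pool.Agent.W2helper39.BU

open Finset Matrix Module Filter Topology
open Pool.Agent.Helper976.Bal

variable {ι : Type*} [Fintype ι] [DecidableEq ι]
variable {E : Type*} [NormedAddCommGroup E] [InnerProductSpace ℝ E]

/-- the smooth conic `X Y = Z²` -/
lemma cone1 {v : ι → E} {X Y Z : ι → ℝ} {M : (Fin 3 → ℝ) →ₗ[ℝ] E}
    (hM : ∀ i, v i = M ![X i, Z i, Y i]) (h : ∀ i, X i * Y i = Z i ^ 2) (T : Finset ι) :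
    OnCurve v T 3 := by
  refine ⟨fun i => if X i = 0 then 0 else X i, fun i => if X i = 0 then 1 else Z i,
    fun i => if X i = 0 then Y i else (X i)⁻¹, M, fun i _ => ?_⟩
  rw [hM i, ← map_smul]
  congr 1
  by_cases hX : X i = 0
  · have hZ : Z i = 0 := by
      have := h i
      rw [hX, zero_mul] at this
      exact pow_eq_zero_iff (two_ne_zero) |>.1 this.symm
    ext k
    fin_cases k <;> simp [hX, hZ]
  · have hY : Y i = Z i ^ 2 / X i := by
      rw [← h i]; field_simp
    ext k
    fin_cases k
    · simp [hX]; field_simp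
    · simp [hX]
    · simp [hX, hY]; field_simp

/-- the pair of planes `X Y = 0` is a limit of cones over smooth conics -/
lemma cone0 {v : ι → E} (hv : ∀ i, ‖v i‖ = 1) {X Y Z : ι → ℝ} {M : (Fin 3 → ℝ) →ₗ[ℝ] E}
    (hM : ∀ i, v i = M ![X i, Z i, Y i]) (h : ∀ i, X i * Y i = 0) (T : Finset ι) :
    v ∈ closure {u : ι → E | (∀ i, ‖u i‖ = 1) ∧ OnCurve u T 3} := by
  -- the perturbed coordinates
  set c : ℝ → ι → Fin 3 → ℝ := fun δ i =>
    if X i ≠ 0 then ![X i, Z i, δ ^ 2 * Z i ^ 2 / X i]
    else if Y i ≠ 0 then ![δ ^ 2 * Z i ^ 2 / Y i, Z i, Y i]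
    else ![δ * Z i, Z i, δ * Z i] with hc
  set y : ℝ → ι → E := fun δ i => M (c δ i) with hy
  have hMc : Continuous M := LinearMap.continuous_of_finiteDimensional M
  have hc0 : ∀ i, c 0 i = ![X i, Z i, Y i] := by
    intro i
    simp only [hc]
    by_cases hX : X i ≠ 0
    · have hY : Y i = 0 := (mul_eq_zero.1 (h i)).resolve_left hX
      rw [if_pos hX, hY]
      ext k; fin_cases k <;> simp
    · rw [if_neg hX]
      push Not at hX
      by_cases hY : Y i ≠ 0
      · rw [if_pos hY, hX]
        ext k; fin_cases k <;> simp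
      · rw [if_neg hY]
        push Not at hY
        rw [hX, hY]
        ext k; fin_cases k <;> simp
  have hcc : ∀ i, Continuous fun δ : ℝ => c δ i := by
    intro i
    refine continuous_pi fun k => ?_
    by_cases hX : X i ≠ 0
    · simp only [hc, if_pos hX]
      fin_cases k
      · simpa using continuous_const
      · simpa using continuous_const
      · change Continuous fun δ : ℝ => δ ^ 2 * Z i ^ 2 / X i
        fun_prop
    · by_cases hY : Y i ≠ 0
      · simp only [hc, if_neg hX, if_pos hY]
        fin_cases k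
        · change Continuous fun δ : ℝ => δ ^ 2 * Z i ^ 2 / Y i
          fun_prop
        · simpa using continuous_const
        · simpa using continuous_const
      · simp only [hc, if_neg hX, if_neg hY]
        fin_cases k
        · change Continuous fun δ : ℝ => δ * Z i
          fun_prop
        · simpa using continuous_const
        · change Continuous fun δ : ℝ => δ * Z i
          fun_prop
  have hyc : ∀ i, Continuous fun δ : ℝ => y δ i := fun i => hMc.comp (hcc i)
  have hy0 : ∀ i, y 0 i = v i := by
    intro i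
    simp only [hy]
    rw [hc0 i, hM i]
  have hne : ∀ᶠ δ : ℝ in 𝓝[>] 0, ∀ i, y δ i ≠ 0 := by
    refine (eventually_all.2 fun i => ?_).filter_mono nhdsWithin_le_nhds
    refine (hyc i).continuousAt.eventually_ne ?_
    rw [hy0 i]
    intro h
    have := hv i
    rw [h, norm_zero] at this
    exact zero_ne_one this
  have htend : Tendsto (fun δ : ℝ => fun i => ‖y δ i‖⁻¹ • y δ i) (𝓝[>] 0) (𝓝 v) := by
    rw [tendsto_pi_nhds]
    intro i
    have h1 : Tendsto (fun δ : ℝ => y δ i) (𝓝[>] 0) (𝓝 (v i)) := by
      have := (hyc i).tendsto 0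
      rw [hy0 i] at this
      exact this.mono_left nhdsWithin_le_nhds
    have h2 := (h1.norm.inv₀ (by rw [hv i]; norm_num)).smul h1
    rw [hv i, inv_one, one_smul] at h2
    exact h2
  refine mem_closure_of_tendsto htend ?_
  filter_upwards [hne, self_mem_nhdsWithin] with δ hδ hδ0
  have hδ0' : (0 : ℝ) < δ := hδ0
  refine ⟨fun i => ?_, ?_⟩
  · rw [norm_smul, norm_inv, norm_norm, inv_mul_cancel₀ (norm_ne_zero_iff.2 (hδ i))]
  · refine ⟨fun i => if X i ≠ 0 then X i else if Y i ≠ 0 then δ ^ 2 * Z i else δ,
      fun i => if X i ≠ 0 then Z i else if Y i ≠ 0 then Y i else 1,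
      fun i => ‖y δ i‖⁻¹ * (if X i ≠ 0 then (X i)⁻¹ else if Y i ≠ 0 then (δ ^ 2 * Y i)⁻¹
        else Z i / δ),
      M ∘ₗ LinearMap.pi (fun k : Fin 3 => (![1, 1, δ ^ 2] k : ℝ) •
        (LinearMap.proj k : (Fin 3 → ℝ) →ₗ[ℝ] ℝ)), fun i _ => ?_⟩
    change ‖y δ i‖⁻¹ • M (c δ i) = _
    rw [mul_smul, LinearMap.comp_apply]
    refine congrArg (fun z => ‖y δ i‖⁻¹ • z) ?_
    rw [← map_smul]
    refine congrArg M ?_
    simp only [hc]
    by_cases hX : X i ≠ 0
    · simp only [if_pos hX]
      ext k
      fin_cases k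
      · simp; field_simp
      · simp; field_simp
      · simp; field_simp
    · by_cases hY : Y i ≠ 0
      · simp only [if_neg hX, if_pos hY]
        ext k
        fin_cases k
        · simp; field_simp
        · simp; field_simp
        · simp; field_simp
      · simp only [if_neg hX, if_neg hY]
        ext k
        fin_cases k
        · simp; field_simp
        · simp; field_simp
        · simp; field_simp

end Pool.Agent.W2helper39.BU
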