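import Pool.Agent.Helper976_Bal.Vertex

set_option autoImplicit false
set_option linter.unusedSectionVars false

/-!
# Large points in sections of the cube

For an orthonormal family `U` of `ℝ^ι` and nonnegative weights `a` on a finite set `S` of indices
there is a point `x = ∑ k ∈ S, t k • U k` of the cube `[-1,1]^ι` with
`∑ k ∈ S, a k * t k ^ 2 ≥ ∑ k ∈ S, a k`.
-/

namespace Pool.Agent.W2helper39.BU

open Finset Filter Topology

variable {ι κ : Type*} [Fintype ι] [Fintype κ]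

/-- the section of the cube by the span of the vectors `U k`, `k ∈ S`, in coordinates `t` -/
def Sec (U : κ → EuclideanSpace ℝ ι) (S : Finset κ) : Set (κ → ℝ) :=
  {t | (∀ k, k ∉ S → t k = 0) ∧ ∀ i, |∑ k ∈ S, t k * U k i| ≤ 1}

lemma par {U : κ → EuclideanSpace ℝ ι} (hU : Orthonormal ℝ U) (S : Finset κ) (t : κ → ℝ) :
    ∑ i, (∑ k ∈ S, t k * U k i) ^ 2 = ∑ k ∈ S, t k ^ 2 := by
  have h := hU.inner_sum t t S
  rw [real_inner_self_eq_norm_sq, EuclideanSpace.real_norm_sq_eq] at h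
  have h2 : ∑ i, ((∑ k ∈ S, t k • U k : EuclideanSpace ℝ ι) i) ^ 2 =
      ∑ i, (∑ k ∈ S, t k * U k i) ^ 2 := by
    refine sum_congr rfl fun i _ => ?_
    congr 1
    simp
  rw [← h2, h]
  refine sum_congr rfl fun k _ => ?_
  simp [sq]

lemma par_le {U : κ → EuclideanSpace ℝ ι} (hU : Orthonormal ℝ U) {S : Finset κ} {t : κ → ℝ}
    (ht : t ∈ Sec U S) : ∑ k ∈ S, t k ^ 2 ≤ Fintype.card ι := by
  rw [← par hU S t]
  calc ∑ i, (∑ k ∈ S, t k * U k i) ^ 2 ≤ ∑ _i : ι, (1 : ℝ) := by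
        refine sum_le_sum fun i _ => ?_
        have := ht.2 i
        rw [← sq_abs]
        nlinarith [abs_nonneg (∑ k ∈ S, t k * U k i)]
    _ = Fintype.card ι := by simp

lemma isClosed_sec (U : κ → EuclideanSpace ℝ ι) (S : Finset κ) : IsClosed (Sec U S) := by
  have : Sec U S = (⋂ k, {t : κ → ℝ | k ∉ S → t k = 0}) ∩
      ⋂ i, {t : κ → ℝ | |∑ k ∈ S, t k * U k i| ≤ 1} := by
    ext t
    simp [Sec]
  rw [this]
  refine IsClosed.inter (isClosed_iInter fun k => ?_) (isClosed_iInter fun i => ?_)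
  · by_cases hk : k ∈ S
    · have : {t : κ → ℝ | k ∉ S → t k = 0} = Set.univ := by ext t; simp [hk]
      rw [this]; exact isClosed_univ
    · have : {t : κ → ℝ | k ∉ S → t k = 0} = {t | t k = 0} := by ext t; simp [hk]
      rw [this]
      exact isClosed_eq (continuous_apply k) continuous_const
  · refine isClosed_le ?_ continuous_const
    fun_prop

lemma isCompact_sec {U : κ → EuclideanSpace ℝ ι} (hU : Orthonormal ℝ U) (S : Finset κ) :
    IsCompact (Sec U S) := by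
  refine (isCompact_univ_pi (fun _ : κ => isCompact_Icc (a := -((Fintype.card ι : ℝ) + 1))
    (b := (Fintype.card ι : ℝ) + 1))).of_isClosed_subset (isClosed_sec U S) ?_
  intro t ht k _
  have hc : (0 : ℝ) ≤ Fintype.card ι := Nat.cast_nonneg _
  change t k ∈ Set.Icc _ _
  rw [Set.mem_Icc, ← abs_le]
  by_cases hk : k ∈ S
  · have h1 : t k ^ 2 ≤ ∑ k ∈ S, t k ^ 2 :=
      single_le_sum (f := fun k => t k ^ 2) (fun _ _ => sq_nonneg _) hk
    have h2 := par_le hU ht
    refine abs_le_of_sq_le_sq (by nlinarith) (by linarith)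
  · rw [ht.1 k hk]
    simp
    linarith

lemma exists_vertex {U : κ → EuclideanSpace ℝ ι} (hU : Orthonormal ℝ U) (S : Finset κ)
    (b : κ → ℝ) (hb : ∀ k ∈ S, 0 ≤ b k) {t₁ : κ → ℝ} (ht₁ : t₁ ∈ Sec U S) :
    ∃ t ∈ Sec U S, ∑ k ∈ S, b k * t₁ k ^ 2 ≤ ∑ k ∈ S, b k * t k ^ 2 ∧
      (S.card : ℝ) ≤ ∑ k ∈ S, t k ^ 2 := by
  classical
  have hcg : Continuous fun t : κ → ℝ => ∑ k ∈ S, b k * t k ^ 2 := by fun_prop
  have hch : Continuous fun t : κ → ℝ => ∑ k ∈ S, t k ^ 2 := by fun_prop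
  obtain ⟨t₂, ht₂, hmax⟩ := (isCompact_sec hU S).exists_isMaxOn ⟨t₁, ht₁⟩ hcg.continuousOn
  rw [isMaxOn_iff] at hmax
  set M := ∑ k ∈ S, b k * t₂ k ^ 2 with hM
  have hcomp : IsCompact (Sec U S ∩ {t : κ → ℝ | ∑ k ∈ S, b k * t k ^ 2 = M}) :=
    (isCompact_sec hU S).inter_right (isClosed_eq hcg continuous_const)
  obtain ⟨t, ⟨ht, htM⟩, hmaxh⟩ := hcomp.exists_isMaxOn ⟨t₂, ht₂, rfl⟩ hch.continuousOn
  rw [isMaxOn_iff] at hmaxh
  have htM' : ∑ k ∈ S, b k * t k ^ 2 = M := htM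
  refine ⟨t, ht, ?_, ?_⟩
  · rw [htM']; exact hmax t₁ ht₁
  · -- the tight set
    set N : Finset ι := univ.filter fun i => |∑ k ∈ S, t k * U k i| = 1 with hN
    have hNle : (N.card : ℝ) ≤ ∑ k ∈ S, t k ^ 2 := by
      rw [← par hU S t]
      calc (N.card : ℝ) = ∑ i ∈ N, (1 : ℝ) := by simp
        _ = ∑ i ∈ N, (∑ k ∈ S, t k * U k i) ^ 2 := by
            refine sum_congr rfl fun i hi => ?_
            rw [hN, mem_filter] at hi
            rw [← sq_abs, hi.2]; norm_num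
        _ ≤ _ := sum_le_univ_sum_of_nonneg (fun _ => sq_nonneg _)
    refine le_trans ?_ hNle
    by_contra hlt
    push Not at hlt
    have hlt' : N.card < S.card := by exact_mod_cast hlt
    -- a direction
    obtain ⟨y, ⟨k₀, hk₀⟩, hyS, hy0⟩ := Pool.Agent.Helper976.Bal.dep
      (fun k => (WithLp.toLp 2 fun i : N => U k i : EuclideanSpace ℝ N)) S (by simpa using hlt')
    have hyN : ∀ i ∈ N, ∑ k ∈ S, y k * U k i = 0 := by
      intro i hi
      have h1 := congrArg (fun f : EuclideanSpace ℝ N => f ⟨i, hi⟩) hy0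
      have h2 : ∑ k, y k * U k i = 0 := by simpa using h1
      rw [← h2]
      refine sum_subset (subset_univ S) fun k _ hk => ?_
      rw [hyS k hk, zero_mul]
    have hev : ∀ i, ∀ᶠ δ : ℝ in 𝓝 0, |∑ k ∈ S, (t k + δ * y k) * U k i| ≤ 1 ∧
        |∑ k ∈ S, (t k - δ * y k) * U k i| ≤ 1 := by
      intro i
      by_cases hi : i ∈ N
      · refine Eventually.of_forall fun δ => ?_
        have e1 : ∑ k ∈ S, (t k + δ * y k) * U k i = ∑ k ∈ S, t k * U k i := by
          have : ∑ k ∈ S, (t k + δ * y k) * U k i =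
              ∑ k ∈ S, t k * U k i + δ * ∑ k ∈ S, y k * U k i := by
            rw [mul_sum, ← sum_add_distrib]
            exact sum_congr rfl fun k _ => by ring
          rw [this, hyN i hi]; ring
        have e2 : ∑ k ∈ S, (t k - δ * y k) * U k i = ∑ k ∈ S, t k * U k i := by
          have : ∑ k ∈ S, (t k - δ * y k) * U k i =
              ∑ k ∈ S, t k * U k i - δ * ∑ k ∈ S, y k * U k i := by
            rw [mul_sum, ← sum_sub_distrib]
            exact sum_congr rfl fun k _ => by ring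
          rw [this, hyN i hi]; ring
        rw [e1, e2]
        exact ⟨ht.2 i, ht.2 i⟩
      · have hlt1 : |∑ k ∈ S, t k * U k i| < 1 := by
          refine lt_of_le_of_ne (ht.2 i) fun h => hi ?_
          rw [hN, mem_filter]; exact ⟨mem_univ _, h⟩
        have c1 : Continuous fun δ : ℝ => |∑ k ∈ S, (t k + δ * y k) * U k i| := by fun_prop
        have c2 : Continuous fun δ : ℝ => |∑ k ∈ S, (t k - δ * y k) * U k i| := by fun_prop
        have l1 : ∀ᶠ δ : ℝ in 𝓝 0, |∑ k ∈ S, (t k + δ * y k) * U k i| < 1 :=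
          c1.continuousAt.eventually_lt continuousAt_const (by simpa using hlt1)
        have l2 : ∀ᶠ δ : ℝ in 𝓝 0, |∑ k ∈ S, (t k - δ * y k) * U k i| < 1 :=
          c2.continuousAt.eventually_lt continuousAt_const (by simpa using hlt1)
        filter_upwards [l1, l2] with δ h1 h2
        exact ⟨h1.le, h2.le⟩
    have hev' : ∀ᶠ δ : ℝ in 𝓝[>] 0, ∀ i, |∑ k ∈ S, (t k + δ * y k) * U k i| ≤ 1 ∧
        |∑ k ∈ S, (t k - δ * y k) * U k i| ≤ 1 :=
      (eventually_all.2 hev).filter_mono nhdsWithin_le_nhds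
    obtain ⟨δ, hδ, hδ0⟩ := (hev'.and self_mem_nhdsWithin).exists
    have hδ0' : 0 < δ := hδ0
    have hp : (fun k => t k + δ * y k) ∈ Sec U S :=
      ⟨fun k hk => by simp [ht.1 k hk, hyS k hk], fun i => (hδ i).1⟩
    have hm : (fun k => t k - δ * y k) ∈ Sec U S :=
      ⟨fun k hk => by simp [ht.1 k hk, hyS k hk], fun i => (hδ i).2⟩
    have g1 := hmax _ hp
    have g2 := hmax _ hm
    have gs : ∑ k ∈ S, b k * (t k + δ * y k) ^ 2 + ∑ k ∈ S, b k * (t k - δ * y k) ^ 2 =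
        2 * M + 2 * δ ^ 2 * ∑ k ∈ S, b k * y k ^ 2 := by
      rw [← htM', mul_sum, mul_sum, ← sum_add_distrib, ← sum_add_distrib]
      exact sum_congr rfl fun k _ => by ring
    have gy : 0 ≤ ∑ k ∈ S, b k * y k ^ 2 :=
      sum_nonneg fun k hk => mul_nonneg (hb k hk) (sq_nonneg _)
    have gy' : 0 ≤ 2 * δ ^ 2 * ∑ k ∈ S, b k * y k ^ 2 := by positivity
    have q1 : ∑ k ∈ S, b k * (t k + δ * y k) ^ 2 = M := by linarith
    have q2 : ∑ k ∈ S, b k * (t k - δ * y k) ^ 2 = M := by linarith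
    have h1 := hmaxh _ ⟨hp, q1⟩
    have h2 := hmaxh _ ⟨hm, q2⟩
    have hs : ∑ k ∈ S, (t k + δ * y k) ^ 2 + ∑ k ∈ S, (t k - δ * y k) ^ 2 =
        2 * ∑ k ∈ S, t k ^ 2 + 2 * δ ^ 2 * ∑ k ∈ S, y k ^ 2 := by
      rw [mul_sum, mul_sum, ← sum_add_distrib, ← sum_add_distrib]
      exact sum_congr rfl fun k _ => by ring
    have hk₀S : k₀ ∈ S := by
      by_contra h
      exact hk₀ (hyS k₀ h)
    have hy : 0 < ∑ k ∈ S, y k ^ 2 :=
      lt_of_lt_of_le (by positivity : 0 < y k₀ ^ 2)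
        (single_le_sum (f := fun k => y k ^ 2) (fun _ _ => sq_nonneg _) hk₀S)
    have hy' : 0 < 2 * δ ^ 2 * ∑ k ∈ S, y k ^ 2 := by positivity
    linarith

/-- **Large points in sections of the cube.** -/
theorem cube_section {U : κ → EuclideanSpace ℝ ι} (hU : Orthonormal ℝ U) (S : Finset κ)
    (a : κ → ℝ) (ha : ∀ k ∈ S, 0 ≤ a k) :
    ∃ t ∈ Sec U S, ∑ k ∈ S, a k ≤ ∑ k ∈ S, a k * t k ^ 2 := by
  classical
  induction hn : S.card generalizing S a with
  | zero =>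
    have hS : S = ∅ := card_eq_zero.1 hn
    subst hS
    exact ⟨0, ⟨fun _ _ => rfl, fun i => by simp⟩, by simp⟩
  | succ n ih =>
    have hne : S.Nonempty := card_pos.1 (by omega)
    obtain ⟨m, hmS, hm⟩ := S.exists_min_image a hne
    obtain ⟨t₁, ht₁, h₁⟩ := ih (S.erase m) (fun k => a k - a m)
      (fun k hk => by have := hm k (mem_of_mem_erase hk); simpa using this)
      (by rw [card_erase_of_mem hmS]; omega)
    have ht₁m : t₁ m = 0 := ht₁.1 m (by simp)
    have hsec : t₁ ∈ Sec U S := by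
      refine ⟨fun k hk => ht₁.1 k (fun h => hk (mem_of_mem_erase h)), fun i => ?_⟩
      have : ∑ k ∈ S, t₁ k * U k i = ∑ k ∈ S.erase m, t₁ k * U k i := by
        rw [← add_sum_erase S _ hmS, ht₁m]; ring
      rw [this]; exact ht₁.2 i
    obtain ⟨t, ht, hg, hc⟩ := exists_vertex hU S (fun k => a k - a m)
      (fun k hk => by have := hm k hk; simpa using this) hsec
    refine ⟨t, ht, ?_⟩
    have e1 : ∑ k ∈ S, (a k - a m) * t₁ k ^ 2 = ∑ k ∈ S.erase m, (a k - a m) * t₁ k ^ 2 := by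
      rw [← add_sum_erase S _ hmS]; ring
    have e2 : ∑ k ∈ S, (a k - a m) = ∑ k ∈ S.erase m, (a k - a m) := by
      rw [← add_sum_erase S _ hmS]; ring
    have e3 : ∑ k ∈ S, (a k - a m) = ∑ k ∈ S, a k - a m * S.card := by
      rw [sum_sub_distrib]; simp; ring
    have e4 : ∑ k ∈ S, (a k - a m) * t k ^ 2 = ∑ k ∈ S, a k * t k ^ 2 - a m * ∑ k ∈ S, t k ^ 2 := by
      rw [mul_sum, ← sum_sub_distrib]
      exact sum_congr rfl fun k _ => by ring
    have h5 : a m * S.card ≤ a m * ∑ k ∈ S, t k ^ 2 := mul_le_mul_of_nonneg_left hc (ha m hmS)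
    linarith

end Pool.Agent.W2helper39.BU
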