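import Pool.Agent.W2helper39.BU.Spec

set_option autoImplicit false
set_option linter.unusedSectionVars false

/-!
# Averaging with the square of a homogeneous form in the signs

For a function `c` on finite sets, `h(η) = ∑_A c A ∏_{i ∈ A} η i`. The weight `h²` is used to
bound the least norm of a signed sum. For `c` supported on sets of size `m` the average of
`‖w + ∑ η i • v i‖²` is `‖w‖² + |T| - 2 m + 2 ∑_B ‖∑_i c (insert i B) • v i‖²`.
-/

namespace Pool.Agent.W2helper39.BU

open Finset
open Pool.Agent.Helper976.Bal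

variable {ι : Type*} [DecidableEq ι]
variable {E : Type*} [NormedAddCommGroup E] [InnerProductSpace ℝ E]

/-- toggle the membership of `i` -/
def tg (C : Finset ι) (i : ι) : Finset ι := if i ∈ C then C.erase i else insert i C

/-- Parseval: averaging with the weight `h²`. -/
lemma low_char (v : ι → E) (R : ℝ) (T : Finset ι) :
    ∀ (w : E) (c : Finset ι → ℝ), Low T v w R →
      R * ∑ A ∈ T.powerset, c A ^ 2 ≤
        ∑ C ∈ T.powerset, ‖c C • w + ∑ i ∈ T, c (tg C i) • v i‖ ^ 2 := by
  induction T using Finset.induction_on with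
  | empty =>
    intro w c h
    have := h (fun _ => 1) (fun _ => Or.inl rfl)
    simp at this ⊢
    rw [norm_smul, mul_pow, Real.norm_eq_abs, sq_abs]
    nlinarith [mul_le_mul_of_nonneg_left this (sq_nonneg (c ∅))]
  | insert a S ha ih =>
    intro w c h
    obtain ⟨hp, hm⟩ := h.insert ha
    have h1 := ih (w + v a) (fun A => c A + c (insert a A)) hp
    have h2 := ih (w - v a) (fun A => c A - c (insert a A)) hm
    rw [sum_powerset_insert ha, sum_powerset_insert ha]
    have hl : ∑ A ∈ S.powerset, (c A + c (insert a A)) ^ 2 +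
        ∑ A ∈ S.powerset, (c A - c (insert a A)) ^ 2 =
        2 * (∑ A ∈ S.powerset, c A ^ 2 + ∑ A ∈ S.powerset, c (insert a A) ^ 2) := by
      rw [← sum_add_distrib, ← sum_add_distrib, mul_sum]
      exact sum_congr rfl fun A _ => by ring
    have hr : ∑ C ∈ S.powerset, ‖(c C + c (insert a C)) • (w + v a) +
          ∑ i ∈ S, (c (tg C i) + c (insert a (tg C i))) • v i‖ ^ 2 +
        ∑ C ∈ S.powerset, ‖(c C - c (insert a C)) • (w - v a) +
          ∑ i ∈ S, (c (tg C i) - c (insert a (tg C i))) • v i‖ ^ 2 =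
        2 * (∑ C ∈ S.powerset, ‖c C • w + ∑ i ∈ insert a S, c (tg C i) • v i‖ ^ 2 +
          ∑ C ∈ S.powerset, ‖c (insert a C) • w +
            ∑ i ∈ insert a S, c (tg (insert a C) i) • v i‖ ^ 2) := by
      rw [← sum_add_distrib, ← sum_add_distrib, mul_sum]
      refine sum_congr rfl fun C hC => ?_
      have haC : a ∉ C := fun h => ha (mem_powerset.1 hC h)
      have t1 : tg C a = insert a C := by simp [tg, haC]
      have t2 : tg (insert a C) a = C := by simp [tg, haC]
      have t3 : ∀ i ∈ S, tg (insert a C) i = insert a (tg C i) := by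
        intro i hi
        have hia : i ≠ a := fun h => ha (h ▸ hi)
        unfold tg
        by_cases hiC : i ∈ C
        · rw [if_pos (mem_insert_of_mem hiC), if_pos hiC, erase_insert_of_ne (Ne.symm hia)]
        · rw [if_neg (by simp [hia, hiC]), if_neg hiC, insert_comm]
      rw [sum_insert ha, sum_insert ha, t1, t2]
      have s3 : ∑ i ∈ S, c (tg (insert a C) i) • v i = ∑ i ∈ S, c (insert a (tg C i)) • v i :=
        sum_congr rfl fun i hi => by rw [t3 i hi]
      rw [s3]
      simp only [add_smul, sub_smul, sum_add_distrib, sum_sub_distrib]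
      set P := ∑ i ∈ S, c (tg C i) • v i
      set Q := ∑ i ∈ S, c (insert a (tg C i)) • v i
      have hpl := parallelogram_law_with_norm ℝ
        (c C • w + (c (insert a C) • v a + P)) (c (insert a C) • w + (c C • v a + Q))
      have e1 : c C • (w + v a) + c (insert a C) • (w + v a) + (P + Q) =
          (c C • w + (c (insert a C) • v a + P)) + (c (insert a C) • w + (c C • v a + Q)) := by
        rw [smul_add, smul_add]; abel
      have e2 : c C • (w - v a) - c (insert a C) • (w - v a) + (P - Q) =
          (c C • w + (c (insert a C) • v a + P)) - (c (insert a C) • w + (c C • v a + Q)) := by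
        rw [smul_sub, smul_sub]; abel
      rw [e1, e2]
      nlinarith [hpl]
    have h3 := add_le_add h1 h2
    rw [hr, ← mul_add, hl] at h3
    linarith

/-- the contraction of `c` with the vectors -/
noncomputable def con (v : ι → E) (T : Finset ι) (c : Finset ι → ℝ) (B : Finset ι) : E :=
  ∑ i ∈ T \ B, c (insert i B) • v i

lemma split_tg (v : ι → E) {T C : Finset ι} (hC : C ⊆ T) (c : Finset ι → ℝ) :
    ∑ i ∈ T, c (tg C i) • v i = con v T c C + ∑ i ∈ C, c (C.erase i) • v i := by
  rw [← sum_sdiff hC, con]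
  congr 1
  · refine sum_congr rfl fun i hi => ?_
    rw [tg, if_neg (mem_sdiff.1 hi).2]
  · refine sum_congr rfl fun i hi => ?_
    rw [tg, if_pos hi]

lemma norm_split (v : ι → E) {T C : Finset ι} (hC : C ⊆ T) {c : Finset ι → ℝ} {m : ℕ}
    (hc : ∀ A : Finset ι, A.card ≠ m → c A = 0) (w : E) :
    ‖c C • w + ∑ i ∈ T, c (tg C i) • v i‖ ^ 2 =
      c C ^ 2 * ‖w‖ ^ 2 + ‖con v T c C‖ ^ 2 + ‖∑ i ∈ C, c (C.erase i) • v i‖ ^ 2 := by
  rw [split_tg v hC]
  have hP : C.card + 1 ≠ m → con v T c C = 0 := by
    intro h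
    refine sum_eq_zero fun i hi => ?_
    rw [hc (insert i C) (by rw [card_insert_of_notMem (mem_sdiff.1 hi).2]; exact h), zero_smul]
  have hM : C.card ≠ m + 1 → ∑ i ∈ C, c (C.erase i) • v i = 0 := by
    intro h
    refine sum_eq_zero fun i hi => ?_
    rw [hc (C.erase i) (by
      rw [card_erase_of_mem hi]
      have := card_pos.2 ⟨i, hi⟩
      omega), zero_smul]
  by_cases h1 : C.card = m
  · rw [hP (by omega), hM (by omega)]
    simp [norm_smul, mul_pow]
  · rw [hc C h1]
    by_cases h2 : C.card + 1 = m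
    · rw [hM (by omega)]; simp
    · rw [hP h2]; simp

/-- off-diagonal terms -/
lemma off_diag {T : Finset ι} (c : Finset ι → ℝ) {i j : ι} (hi : i ∈ T) (hj : j ∈ T)
    (hij : i ≠ j) :
    ∑ C ∈ T.powerset with i ∈ C ∧ j ∈ C, c (C.erase i) * c (C.erase j) =
      ∑ C ∈ T.powerset with i ∉ C ∧ j ∉ C, c (insert i C) * c (insert j C) := by
  refine sum_nbij' (fun C => (C.erase i).erase j) (fun C => insert i (insert j C)) ?_ ?_ ?_ ?_ ?_
  · intro C hC
    simp only [mem_filter, mem_powerset] at hC ⊢
    refine ⟨((erase_subset _ _).trans (erase_subset _ _)).trans hC.1, ?_, ?_⟩ <;> simp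
  · intro C hC
    simp only [mem_filter, mem_powerset] at hC ⊢
    refine ⟨insert_subset hi (insert_subset hj hC.1), ?_, ?_⟩ <;> simp
  · intro C hC
    simp only [mem_filter, mem_powerset] at hC
    rw [insert_erase (mem_erase.2 ⟨Ne.symm hij, hC.2.2⟩), insert_erase hC.2.1]
  · intro C hC
    simp only [mem_filter, mem_powerset] at hC
    rw [erase_insert (by simp [hij, hC.2.1]), erase_insert hC.2.2]
  · intro C hC
    simp only [mem_filter, mem_powerset] at hC
    have e1 : insert j ((C.erase i).erase j) = C.erase i :=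
      insert_erase (mem_erase.2 ⟨Ne.symm hij, hC.2.2⟩)
    have e2 : insert i ((C.erase i).erase j) = C.erase j := by
      rw [erase_right_comm]
      exact insert_erase (mem_erase.2 ⟨hij, hC.2.1⟩)
    rw [e1, e2, mul_comm]

lemma diag1 {T : Finset ι} (c : Finset ι → ℝ) {i : ι} (hi : i ∈ T) :
    ∑ C ∈ T.powerset with i ∈ C, c (C.erase i) ^ 2 =
      ∑ C ∈ T.powerset with i ∉ C, c C ^ 2 := by
  refine sum_nbij' (fun C => C.erase i) (fun C => insert i C) ?_ ?_ ?_ ?_ ?_
  · intro C hC
    simp only [mem_filter, mem_powerset] at hC ⊢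
    exact ⟨(erase_subset _ _).trans hC.1, by simp⟩
  · intro C hC
    simp only [mem_filter, mem_powerset] at hC ⊢
    exact ⟨insert_subset hi hC.1, by simp⟩
  · intro C hC
    simp only [mem_filter, mem_powerset] at hC
    exact insert_erase hC.2
  · intro C hC
    simp only [mem_filter, mem_powerset] at hC
    exact erase_insert hC.2
  · intro C hC
    rfl

lemma diag2 {T : Finset ι} (c : Finset ι → ℝ) {i : ι} (hi : i ∈ T) :
    ∑ C ∈ T.powerset with i ∉ C, c (insert i C) ^ 2 =
      ∑ C ∈ T.powerset with i ∈ C, c C ^ 2 := by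
  refine sum_nbij' (fun C => insert i C) (fun C => C.erase i) ?_ ?_ ?_ ?_ ?_
  · intro C hC
    simp only [mem_filter, mem_powerset] at hC ⊢
    exact ⟨insert_subset hi hC.1, by simp⟩
  · intro C hC
    simp only [mem_filter, mem_powerset] at hC ⊢
    exact ⟨(erase_subset _ _).trans hC.1, by simp⟩
  · intro C hC
    simp only [mem_filter, mem_powerset] at hC
    exact erase_insert hC.2
  · intro C hC
    simp only [mem_filter, mem_powerset] at hC
    exact insert_erase hC.2
  · intro C hC
    rfl

end Pool.Agent.W2helper39.BU
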