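import Pool.Agent.W2helper39.BU.Bal

set_option autoImplicit false
set_option linter.unusedSectionVars false

/-!
# Families with at most `d + 2` distinct directions
-/

namespace Pool.Agent.W2helper39.BU

open Finset Module
open Pool.Agent.Helper976.Bal

variable {ι : Type*} [Fintype ι] [DecidableEq ι]
variable {E : Type*} [NormedAddCommGroup E] [InnerProductSpace ℝ E]

theorem bal_lines [FiniteDimensional ℝ E] {κ : Type*} [Fintype κ]
    (hκ : Fintype.card κ ≤ finrank ℝ E + 2) (u : κ → E) {v : ι → E} (hv : ∀ i, ‖v i‖ = 1)
    (h : ∀ i, ∃ k, ∃ c : ℝ, v i = c • u k) :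
    ∀ T : Finset ι, Odd (T.card + finrank ℝ E) → Bal v T ((finrank ℝ E : ℝ) - 1) := by
  classical
  choose f c hf using h
  intro T
  induction T using Finset.strongInduction with
  | H T ih =>
    intro hodd
    rcases Nat.lt_or_ge T.card (finrank ℝ E) with hlt | hge
    · refine (bal_card hv T).mono ?_
      have : ((T.card : ℝ) + 1) ≤ finrank ℝ E := by exact_mod_cast hlt
      linarith
    rcases Nat.lt_or_ge T.card (finrank ℝ E + 2) with hlt2 | hge2
    · -- exactly `d + 1` vectors
      have hcard : T.card = finrank ℝ E + 1 := by
        obtain ⟨q, hq⟩ := hodd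
        omega
      have hd : ¬ LinearIndependent ℝ (fun i : T => v i) := by
        intro hli
        have := hli.fintype_card_le_finrank
        rw [Fintype.card_coe] at this
        omega
      refine (bal_dep hv hd).mono ?_
      rw [hcard]
      push_cast
      linarith
    · -- two parallel vectors
      have hlt3 : (univ : Finset κ).card < T.card := by
        rw [card_univ]
        obtain ⟨q, hq⟩ := hodd
        omega
      obtain ⟨i, hi, j, hj, hij, hfij⟩ :=
        exists_ne_map_eq_of_card_lt_of_maps_to hlt3 (f := f) (fun _ _ => mem_univ _)
      have hc : ∀ i, c i ≠ 0 := by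
        intro i h0
        have := hv i
        rw [hf i, h0, zero_smul, norm_zero] at this
        exact zero_ne_one this
      have hdep : ¬ LinearIndependent ℝ (fun k : ({i, j} : Finset ι) => v k) := by
        refine dep_pair hij (a := c j) (b := -c i) (Or.inl (hc j)) ?_
        rw [hf i, hf j, hfij, smul_smul, smul_smul, ← add_smul]
        rw [show c j * c i + -c i * c j = 0 by ring, zero_smul]
      have hsub : ({i, j} : Finset ι) ⊆ T := by
        intro k hk
        simp only [mem_insert, mem_singleton] at hk
        rcases hk with rfl | rfl <;> assumption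
      have hcp : ({i, j} : Finset ι).card = 2 := card_pair hij
      have hcard : (T \ {i, j}).card + 2 = T.card := by
        rw [← hcp]; exact card_sdiff_add_card_eq_card hsub
      have hss : T \ {i, j} ⊂ T := by
        refine ⟨sdiff_subset, fun h => ?_⟩
        have := card_le_card h
        omega
      have h1 := ih (T \ {i, j}) hss (by
        obtain ⟨q, hq⟩ := hodd
        exact ⟨q - 1, by omega⟩)
      have h2 := bal_dep hv hdep
      have h3 := h1.union h2 sdiff_disjoint
      rw [sdiff_union_of_subset hsub] at h3
      refine h3.mono ?_
      rw [hcp]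
      norm_num

end Pool.Agent.W2helper39.BU
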