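import Pool.Agent.W2helper39.BU.Comm

set_option autoImplicit false
set_option linter.unusedSectionVars false

/-!
# Vectors on a rational normal curve

The homogeneous Lagrange identity and the form `h` for points on a rational normal curve.
-/

namespace Pool.Agent.W2helper39.BU

open Finset
open Pool.Agent.Helper976.Bal

variable {ι : Type*} [DecidableEq ι]
variable {E : Type*} [NormedAddCommGroup E] [InnerProductSpace ℝ E]

/-- the bracket of two points of the plane -/
def br (s t : ι → ℝ) (i j : ι) : ℝ := s i * t j - s j * t i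

lemma br_self (s t : ι → ℝ) (i : ι) : br s t i i = 0 := by unfold br; ring

lemma br_swap (s t : ι → ℝ) (i j : ι) : br s t j i = -br s t i j := by unfold br; ring

/-- products of `e` linear forms evaluated at the points -/
inductive HF (s t : ι → ℝ) : ℕ → (ι → ℝ) → Prop
  | one : HF s t 0 (fun _ => 1)
  | mul (α β : ℝ) {e : ℕ} {Q : ι → ℝ} (h : HF s t e Q) :
      HF s t (e + 1) (fun i => (α * s i + β * t i) * Q i)

/-- **The homogeneous Lagrange identity.** -/
theorem lagrange {s t : ι → ℝ} {e : ℕ} {Q : ι → ℝ} (h : HF s t e Q) :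
    ∀ N : Finset ι, N.card = e + 2 → (∀ i ∈ N, ∀ j ∈ N, i ≠ j → br s t i j ≠ 0) →
      ∑ i ∈ N, Q i * (∏ j ∈ N.erase i, br s t i j)⁻¹ = 0 := by
  induction h with
  | one =>
    intro N hN hne
    obtain ⟨a, b, hab, rfl⟩ := card_eq_two.1 hN
    rw [sum_pair hab]
    have e1 : ({a, b} : Finset ι).erase a = {b} := by
      ext x; simp only [mem_erase, mem_insert, mem_singleton]
      constructor
      · rintro ⟨h1, h2 | h2⟩
        · exact absurd h2 h1
        · exact h2
      · rintro rfl; exact ⟨Ne.symm hab, Or.inr rfl⟩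
    have e2 : ({a, b} : Finset ι).erase b = {a} := by
      ext x; simp only [mem_erase, mem_insert, mem_singleton]
      constructor
      · rintro ⟨h1, h2 | h2⟩
        · exact h2
        · exact absurd h2 h1
      · rintro rfl; exact ⟨hab, Or.inl rfl⟩
    rw [e1, e2, prod_singleton, prod_singleton, br_swap s t a b]
    rw [inv_neg]
    ring
  | @mul α β e Q h ih =>
    intro N hN hne
    obtain ⟨a, ha, b, hb, hab⟩ := one_lt_card.1 (by omega : 1 < N.card)
    have hAB : br s t a b ≠ 0 := hne a ha b hb hab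
    have key : ∀ x ∈ N, ∑ i ∈ N, br s t i x * Q i * (∏ j ∈ N.erase i, br s t i j)⁻¹ = 0 := by
      intro x hx
      have h1 := ih (N.erase x) (by rw [card_erase_of_mem hx]; omega)
        (fun i hi j hj hij => hne i (mem_of_mem_erase hi) j (mem_of_mem_erase hj) hij)
      rw [← add_sum_erase N _ hx, br_self, zero_mul, zero_mul, zero_add, ← h1]
      refine sum_congr rfl fun i hi => ?_
      rw [mem_erase] at hi
      have h2 : ∏ j ∈ N.erase i, br s t i j =
          br s t i x * ∏ j ∈ (N.erase x).erase i, br s t i j := by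
        rw [erase_right_comm]
        exact (mul_prod_erase _ _ (mem_erase.2 ⟨Ne.symm hi.1, hx⟩)).symm
      rw [h2, mul_inv]
      have := hne i hi.2 x hx hi.1
      field_simp
    have hid : ∀ i, (α * s i + β * t i) * br s t a b =
        (α * s a + β * t a) * br s t i b - (α * s b + β * t b) * br s t i a := by
      intro i; unfold br; ring
    have hsum : br s t a b *
        ∑ i ∈ N, (α * s i + β * t i) * Q i * (∏ j ∈ N.erase i, br s t i j)⁻¹ = 0 := by
      have : br s t a b *
          ∑ i ∈ N, (α * s i + β * t i) * Q i * (∏ j ∈ N.erase i, br s t i j)⁻¹ =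
          (α * s a + β * t a) * ∑ i ∈ N, br s t i b * Q i * (∏ j ∈ N.erase i, br s t i j)⁻¹ -
          (α * s b + β * t b) * ∑ i ∈ N, br s t i a * Q i * (∏ j ∈ N.erase i, br s t i j)⁻¹ := by
        rw [mul_sum, mul_sum, mul_sum, ← sum_sub_distrib]
        refine sum_congr rfl fun i _ => ?_
        linear_combination (Q i * (∏ j ∈ N.erase i, br s t i j)⁻¹) * hid i
      rw [this, key a ha, key b hb]
      ring
    exact (mul_eq_zero.1 hsum).resolve_left hAB

lemma hf_pow (s t : ι → ℝ) (p q : ℕ) : HF s t (p + q) (fun i => s i ^ p * t i ^ q) := by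
  induction p with
  | zero =>
    induction q with
    | zero => simpa using HF.one (s := s) (t := t)
    | succ q ih =>
      have := HF.mul 0 1 ih
      have e2 : (fun i => s i ^ 0 * t i ^ (q + 1)) =
          fun i => (0 * s i + 1 * t i) * (s i ^ 0 * t i ^ q) := by
        ext i; ring
      rw [e2]
      exact this
  | succ p ih =>
    have := HF.mul 1 0 ih
    have e : p + 1 + q = p + q + 1 := by ring
    have e2 : (fun i => s i ^ (p + 1) * t i ^ q) =
        fun i => (1 * s i + 0 * t i) * (s i ^ p * t i ^ q) := by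
      ext i; ring
    rw [e, e2]
    exact this

lemma hf_prod {s t : ι → ℝ} {e : ℕ} {Q : ι → ℝ} (h : HF s t e Q) (B : Finset ι) :
    HF s t (B.card + e) (fun i => (∏ b ∈ B, br s t b i) * Q i) := by
  induction B using Finset.induction_on with
  | empty => simpa using h
  | insert a B ha ih =>
    have := HF.mul (-t a) (s a) ih
    rw [card_insert_of_notMem ha]
    have e' : B.card + 1 + e = B.card + e + 1 := by ring
    have e2 : (fun i => (∏ b ∈ insert a B, br s t b i) * Q i) =
        fun i => (-t a * s i + s a * t i) * ((∏ b ∈ B, br s t b i) * Q i) := by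
      ext i
      rw [prod_insert ha]
      unfold br
      ring
    rw [e', e2]
    exact this

/-- the moment vector of a point -/
def mom (D : ℕ) (x y : ℝ) : Fin D → ℝ := fun k => x ^ (D - 1 - (k : ℕ)) * y ^ (k : ℕ)

/-- the coefficients of the form -/
noncomputable def cc (s t γ : ι → ℝ) (T : Finset ι) (m : ℕ) (A : Finset ι) : ℝ :=
  if A.card = m then ∏ i ∈ A, ((γ i)⁻¹ * ∏ j ∈ T \ A, (br s t i j)⁻¹) else 0

lemma cc_con {D m : ℕ} (hD : 1 ≤ D) {s t γ : ι → ℝ} {T : Finset ι}
    (M : (Fin D → ℝ) →ₗ[ℝ] E) {v : ι → E} (hv : ∀ i ∈ T, v i = γ i • M (mom D (s i) (t i)))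
    (hγ : ∀ i ∈ T, γ i ≠ 0) (hbr : ∀ i ∈ T, ∀ j ∈ T, i ≠ j → br s t i j ≠ 0)
    (hcard : T.card + 1 = D + 2 * m) {B : Finset ι} (hB : B ⊆ T) :
    con v T (cc s t γ T m) B = 0 := by
  unfold con
  by_cases hBm : B.card + 1 = m
  swap
  · refine sum_eq_zero fun i hi => ?_
    rw [cc, if_neg (by rw [card_insert_of_notMem (mem_sdiff.1 hi).2]; exact hBm), zero_smul]
  set N := T \ B with hN
  have hNcard : N.card = (D - 1) + B.card + 2 := by
    have h0 : N.card + B.card = T.card := card_sdiff_add_card_eq_card hB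
    omega
  set K : ℝ := ∏ b ∈ B, ((γ b)⁻¹ * ∏ j ∈ N, (br s t b j)⁻¹) with hK
  have hterm : ∀ i ∈ N, cc s t γ T m (insert i B) • v i =
      K • M (fun k => (∏ b ∈ B, br s t b i) * mom D (s i) (t i) k *
        (∏ j ∈ N.erase i, br s t i j)⁻¹) := by
    intro i hi
    have hiT : i ∈ T := (mem_sdiff.1 hi).1
    have hiB : i ∉ B := (mem_sdiff.1 hi).2
    have hsd : T \ insert i B = N.erase i := by
      ext x; simp only [hN, mem_sdiff, mem_insert, mem_erase]; tauto
    have hcc : cc s t γ T m (insert i B) = K * (γ i)⁻¹ * (∏ b ∈ B, br s t b i) *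
        (∏ j ∈ N.erase i, br s t i j)⁻¹ := by
      rw [cc, if_pos (by rw [card_insert_of_notMem hiB]; exact hBm), prod_insert hiB, hsd]
      have h1 : ∏ b ∈ B, ((γ b)⁻¹ * ∏ j ∈ N.erase i, (br s t b j)⁻¹) =
          K * ∏ b ∈ B, br s t b i := by
        rw [hK, ← prod_mul_distrib]
        refine prod_congr rfl fun b hb => ?_
        have hbi : br s t b i ≠ 0 := hbr b (hB hb) i hiT (fun h => hiB (h ▸ hb))
        rw [← mul_prod_erase N _ hi]
        field_simp
      rw [h1, prod_inv_distrib]
      ring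
    rw [hcc, hv i hiT, smul_smul]
    have h2 : (fun k => (∏ b ∈ B, br s t b i) * mom D (s i) (t i) k *
        (∏ j ∈ N.erase i, br s t i j)⁻¹) =
        ((∏ b ∈ B, br s t b i) * (∏ j ∈ N.erase i, br s t i j)⁻¹) • mom D (s i) (t i) := by
      ext k; simp only [Pi.smul_apply, smul_eq_mul]; ring
    rw [h2, map_smul, smul_smul]
    congr 1
    have := hγ i hiT
    field_simp
  rw [sum_congr rfl hterm, ← smul_sum, ← map_sum]
  have hz : ∑ i ∈ N, (fun k => (∏ b ∈ B, br s t b i) * mom D (s i) (t i) k *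
        (∏ j ∈ N.erase i, br s t i j)⁻¹) = 0 := by
    ext k
    rw [Finset.sum_apply]
    have hf := hf_prod (hf_pow s t (D - 1 - (k : ℕ)) k) B
    have hk := k.2
    exact lagrange hf N (by omega) (fun i hi j hj hij =>
      hbr i (mem_sdiff.1 hi).1 j (mem_sdiff.1 hj).1 hij)
  rw [hz, map_zero, smul_zero]

lemma cc_ne {m : ℕ} {s t γ : ι → ℝ} {T : Finset ι}
    (hγ : ∀ i ∈ T, γ i ≠ 0) (hbr : ∀ i ∈ T, ∀ j ∈ T, i ≠ j → br s t i j ≠ 0)
    (hcard : m ≤ T.card) : 0 < ∑ A ∈ T.powerset, cc s t γ T m A ^ 2 := by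
  obtain ⟨A, hA, hAm⟩ := exists_subset_card_eq hcard
  refine lt_of_lt_of_le ?_ (single_le_sum (f := fun A => cc s t γ T m A ^ 2)
    (fun _ _ => sq_nonneg _) (mem_powerset.2 hA))
  have : cc s t γ T m A ≠ 0 := by
    rw [cc, if_pos hAm, prod_ne_zero_iff]
    intro i hi
    refine mul_ne_zero (inv_ne_zero (hγ i (hA hi))) (prod_ne_zero_iff.2 fun j hj => ?_)
    rw [mem_sdiff] at hj
    exact inv_ne_zero (hbr i (hA hi) j hj.1 (fun h => hj.2 (h ▸ hi)))
  positivity

end Pool.Agent.W2helper39.BU
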