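import Pool.Agent.W2helper39.BU.Cube

set_option autoImplicit false
set_option linter.unusedSectionVars false

/-!
# The spectral point of the cube

For unit vectors `v i` whose Gram matrix has the eigenvalues `λ k` there is a point `x` of the cube
with `‖∑ x i • v i‖ ^ 2 + ∑ (1 - x i ^ 2) ≤ ∑ min 1 (λ k)`, and the right side is at most the rank.
-/

namespace Pool.Agent.W2helper39.BU

open Finset Matrix Module

variable {ι : Type*} [Fintype ι] [DecidableEq ι]
variable {E : Type*} [NormedAddCommGroup E] [InnerProductSpace ℝ E]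

/-- the combinations of the vectors `v i` given by the eigenvectors of the Gram matrix -/
noncomputable def ww (v : ι → E) (k : ι) : E :=
  ∑ i, (isHermitian_gram ℝ v).eigenvectorBasis k i • v i

lemma inner_ww (v : ι → E) (j k : ι) :
    inner ℝ (ww v j) (ww v k) = if j = k then (isHermitian_gram ℝ v).eigenvalues k else 0 := by
  set hG := isHermitian_gram ℝ v with hGdef
  unfold ww
  have h := star_dotProduct_gram_mulVec v (hG.eigenvectorBasis j) (hG.eigenvectorBasis k)
    (𝕜 := ℝ)
  rw [← h, hG.mulVec_eigenvectorBasis, dotProduct_smul]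
  have h2 : star ⇑(hG.eigenvectorBasis j) ⬝ᵥ ⇑(hG.eigenvectorBasis k) =
      inner ℝ (hG.eigenvectorBasis j) (hG.eigenvectorBasis k) := by
    rw [EuclideanSpace.inner_eq_star_dotProduct, dotProduct_comm]
  rw [h2, orthonormal_iff_ite.1 hG.eigenvectorBasis.orthonormal j k]
  split_ifs <;> simp

lemma norm_comb (v : ι → E) (S : Finset ι) (t : ι → ℝ) :
    ‖∑ i, (∑ k ∈ S, t k * (isHermitian_gram ℝ v).eigenvectorBasis k i) • v i‖ ^ 2 =
      ∑ k ∈ S, (isHermitian_gram ℝ v).eigenvalues k * t k ^ 2 := by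
  have e : ∑ i, (∑ k ∈ S, t k * (isHermitian_gram ℝ v).eigenvectorBasis k i) • v i =
      ∑ k ∈ S, t k • ww v k := by
    unfold ww
    simp_rw [sum_smul, smul_sum, smul_smul]
    exact sum_comm
  rw [e, ← real_inner_self_eq_norm_sq, sum_inner]
  refine sum_congr rfl fun j hj => ?_
  rw [inner_smul_left, inner_sum]
  simp only [inner_smul_right, inner_ww]
  rw [sum_eq_single_of_mem j hj (fun k _ hk => by rw [if_neg (Ne.symm hk), mul_zero])]
  simp
  ring

theorem spec_point (v : ι → E) :
    ∃ x : ι → ℝ, (∀ i, |x i| ≤ 1) ∧ ‖∑ i, x i • v i‖ ^ 2 + ∑ i, (1 - x i ^ 2) ≤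
      ∑ k, min 1 ((isHermitian_gram ℝ v).eigenvalues k) := by
  classical
  set hG := isHermitian_gram ℝ v with hGdef
  obtain ⟨t, ht, h⟩ := cube_section hG.eigenvectorBasis.orthonormal
    (univ.filter fun k => hG.eigenvalues k < 1) (fun k => 1 - hG.eigenvalues k)
    (fun k hk => by simp at hk; linarith)
  set S := univ.filter fun k => hG.eigenvalues k < 1 with hS
  refine ⟨fun i => ∑ k ∈ S, t k * hG.eigenvectorBasis k i, ht.2, ?_⟩
  rw [norm_comb, sum_sub_distrib, par hG.eigenvectorBasis.orthonormal S t]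
  have e1 : ∑ k, min 1 (hG.eigenvalues k) = (∑ _k : ι, (1 : ℝ)) -
      ∑ k ∈ S, (1 - hG.eigenvalues k) := by
    rw [hS, sum_filter, ← sum_sub_distrib]
    refine sum_congr rfl fun k _ => ?_
    split_ifs with hk
    · rw [min_eq_right hk.le]; ring
    · rw [min_eq_left (not_lt.1 hk)]; ring
  have e2 : ∑ k ∈ S, (1 - hG.eigenvalues k) * t k ^ 2 =
      ∑ k ∈ S, t k ^ 2 - ∑ k ∈ S, hG.eigenvalues k * t k ^ 2 := by
    rw [← sum_sub_distrib]
    exact sum_congr rfl fun k _ => by ring
  rw [e1]
  linarith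

theorem sum_min_le_rank (v : ι → E) :
    ∑ k, min 1 ((isHermitian_gram ℝ v).eigenvalues k) ≤
      finrank ℝ (Submodule.span ℝ (Set.range v)) := by
  classical
  set hG := isHermitian_gram ℝ v with hGdef
  have : FiniteDimensional ℝ (Submodule.span ℝ (Set.range v)) :=
    FiniteDimensional.span_of_finite ℝ (Set.finite_range v)
  have hmem : ∀ k, ww v k ∈ Submodule.span ℝ (Set.range v) := fun k =>
    Submodule.sum_mem _ fun i _ => Submodule.smul_mem _ _ (Submodule.subset_span ⟨i, rfl⟩)
  have hli : LinearIndependent ℝ (fun k : {k // hG.eigenvalues k ≠ 0} =>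
      (⟨ww v k, hmem k⟩ : Submodule.span ℝ (Set.range v))) := by
    refine linearIndependent_of_ne_zero_of_inner_eq_zero (𝕜 := ℝ) (fun k hk => k.2 ?_) ?_
    · have h0 : ww v k = 0 := congrArg Subtype.val hk
      have := inner_ww v k k
      rw [h0, inner_zero_left, if_pos rfl] at this
      exact this.symm
    · intro j k hjk
      change inner ℝ (ww v j) (ww v k) = 0
      rw [inner_ww, if_neg (fun h => hjk (Subtype.ext h))]
  have hcard := hli.fintype_card_le_finrank
  calc ∑ k, min 1 (hG.eigenvalues k) ≤ ∑ k, (if hG.eigenvalues k ≠ 0 then (1 : ℝ) else 0) := by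
        refine sum_le_sum fun k _ => ?_
        split_ifs with hk
        · exact min_le_left _ _
        · push Not at hk
          rw [hk]; simp
    _ = ((Fintype.card {k // hG.eigenvalues k ≠ 0} : ℕ) : ℝ) := by
        rw [Fintype.card_subtype, sum_boole]
    _ ≤ _ := by exact_mod_cast hcard

end Pool.Agent.W2helper39.BU
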