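import Pool.Agent.W2helper39.BU.Three
import Pool.Agent.W2helper39.BU.Lines

set_option autoImplicit false
set_option linter.unusedSectionVars false

/-!
# Blocks in subspaces
-/

namespace Pool.Agent.W2helper39.BU

open Finset Module
open Pool.Agent.Helper976.Bal

variable {ι : Type*} [Fintype ι] [DecidableEq ι]
variable {E : Type*} [NormedAddCommGroup E] [InnerProductSpace ℝ E]

/-- balancing in a subspace with respect to every offset of the whole space -/
theorem bal_sub (W : Submodule ℝ E) [W.HasOrthogonalProjection] {v : ι → E} {T : Finset ι} {p : ℝ}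
    (hT : ∀ i ∈ T, v i ∈ W)
    (h : Bal (fun i : T => (⟨v i, hT i i.2⟩ : W)) univ p) : Bal v T p := by
  intro w
  obtain ⟨η, hη, h1⟩ := h (W.orthogonalProjectionOnto w)
  refine ⟨fun i => if hi : i ∈ T then η ⟨i, hi⟩ else 1, fun i => ?_, ?_⟩
  · by_cases hi : i ∈ T
    · simpa [hi] using hη ⟨i, hi⟩
    · simp [hi]
  · set x : W := ∑ i : T, η i • (⟨v i, hT i i.2⟩ : W) with hx
    have e : ∑ i ∈ T, (if hi : i ∈ T then η ⟨i, hi⟩ else 1) • v i = (x : E) := by
      rw [hx, Submodule.coe_sum, ← sum_coe_sort T]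
      refine sum_congr rfl fun i _ => ?_
      rw [dif_pos i.2]
      rfl
    rw [e]
    have hmem : w - (W.orthogonalProjectionOnto w : E) ∈ Wᗮ :=
      Submodule.sub_starProjection_mem_orthogonal w
    have ho : inner ℝ (((W.orthogonalProjectionOnto w + x : W) : E))
        (w - (W.orthogonalProjectionOnto w : E)) = 0 :=
      Submodule.inner_right_of_mem_orthogonal (W.orthogonalProjectionOnto w + x).2
        hmem
    have ho2 : inner ℝ (((W.orthogonalProjectionOnto w : W) : E))
        (w - (W.orthogonalProjectionOnto w : E)) = 0 :=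
      Submodule.inner_right_of_mem_orthogonal (W.orthogonalProjectionOnto w).2
        hmem
    have e1 : w + (x : E) = ((W.orthogonalProjectionOnto w + x : W) : E) +
        (w - (W.orthogonalProjectionOnto w : E)) := by
      push_cast; abel
    have e2 : w = ((W.orthogonalProjectionOnto w : W) : E) +
        (w - (W.orthogonalProjectionOnto w : E)) := by abel
    have n1 : ‖w + (x : E)‖ ^ 2 = ‖W.orthogonalProjectionOnto w + x‖ ^ 2 +
        ‖w - (W.orthogonalProjectionOnto w : E)‖ ^ 2 := by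
      rw [e1, norm_add_sq_real, ho, Submodule.norm_coe]
      ring
    have n2 : ‖w‖ ^ 2 = ‖W.orthogonalProjectionOnto w‖ ^ 2 +
        ‖w - (W.orthogonalProjectionOnto w : E)‖ ^ 2 := by
      conv_lhs => rw [e2]
      rw [norm_add_sq_real, ho2, Submodule.norm_coe]
      ring
    rw [n1, n2]
    linarith

theorem block_lines [FiniteDimensional ℝ E] (W : Submodule ℝ E) (u : Fin (finrank ℝ W + 2) → E)
    {v : ι → E} (hv : ∀ i, ‖v i‖ = 1) {T : Finset ι} (hodd : Odd (T.card + finrank ℝ W))
    (hW : ∀ i ∈ T, v i ∈ W) (hu : ∀ i ∈ T, ∃ k, ∃ c : ℝ, v i = c • u k) :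
    Bal v T ((finrank ℝ W : ℝ) - 1) := by
  classical
  have hc : ∀ i : T, ∃ k, ∃ c : ℝ, c ≠ 0 ∧ v i = c • u k := by
    intro i
    obtain ⟨k, c, h⟩ := hu i i.2
    refine ⟨k, c, ?_, h⟩
    rintro rfl
    have := hv i
    rw [h, zero_smul, norm_zero] at this
    exact zero_ne_one this
  refine bal_sub W hW (bal_lines (E := W) (κ := Fin (finrank ℝ W + 2)) (by simp)
    (fun k => if h : u k ∈ W then ⟨u k, h⟩ else 0) (fun i => ?_) (fun i => ?_) univ ?_)
  · rw [← Submodule.norm_coe]; exact hv i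
  · obtain ⟨k, c, hc0, h⟩ := hc i
    have hk : u k ∈ W := by
      have : u k = c⁻¹ • v i := by rw [h, smul_smul, inv_mul_cancel₀ hc0, one_smul]
      rw [this]
      exact W.smul_mem _ (hW i i.2)
    refine ⟨k, c, ?_⟩
    rw [dif_pos hk]
    exact Subtype.ext h
  · rw [card_univ, Fintype.card_coe]
    exact hodd

theorem block_quadric [FiniteDimensional ℝ E] (W : Submodule ℝ E) (h3 : finrank ℝ W = 3)
    {v : ι → E} (hv : ∀ i, ‖v i‖ = 1) {T : Finset ι} (heven : Even T.card)
    (Q : QuadraticForm ℝ W) (hQ : Q ≠ 0) (hT : ∀ i ∈ T, ∃ h : v i ∈ W, Q ⟨v i, h⟩ = 0) :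
    Bal v T 2 := by
  classical
  refine bal_sub W (fun i hi => (hT i hi).1) (bal_three (E := W) h3 (fun i => ?_) ?_ Q hQ ?_)
  · rw [← Submodule.norm_coe]; exact hv i
  · rw [Fintype.card_coe]; exact heven
  · intro i
    exact (hT i i.2).2

end Pool.Agent.W2helper39.BU
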