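import Pool.Agent.W2helper39.BU.Cone

set_option autoImplicit false
set_option linter.unusedSectionVars false

/-!
# Three-dimensional space: families annihilated by a quadratic form
-/

namespace Pool.Agent.W2helper39.BU

open Finset Matrix Module Filter Topology
open Pool.Agent.Helper976.Bal

variable {ι : Type*} [Fintype ι] [DecidableEq ι]
variable {E : Type*} [NormedAddCommGroup E] [InnerProductSpace ℝ E]

/-- the cost of a family is at most the dimension of its span -/
lemma bal_rank [FiniteDimensional ℝ E] {v : ι → E} (hv : ∀ i, ‖v i‖ = 1) {W : Submodule ℝ E}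
    (h : ∀ i, v i ∈ W) : Bal v univ (finrank ℝ W) := by
  have h1 := bal_spec hv (fun _ => True)
  have h2 := sum_min_le_rank (fun i : {i : ι // True} => v i)
  have h3 : Submodule.span ℝ (Set.range (fun i : {i : ι // True} => v i)) ≤ W := by
    rw [Submodule.span_le]
    rintro x ⟨i, rfl⟩
    exact h i
  have h4 := Submodule.finrank_mono h3
  have h5 : (univ.filter fun _ : ι => True) = univ := by simp
  rw [h5] at h1
  refine h1.mono (h2.trans ?_)
  exact_mod_cast h4

lemma bal_plane [FiniteDimensional ℝ E] {v : ι → E} (hv : ∀ i, ‖v i‖ = 1) {φ : E →ₗ[ℝ] ℝ}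
    (hφ : φ ≠ 0) (h : ∀ i, φ (v i) = 0) : Bal v univ ((finrank ℝ E : ℝ) - 1) := by
  have h1 := bal_rank hv (W := LinearMap.ker φ) (fun i => LinearMap.mem_ker.2 (h i))
  have h2 : finrank ℝ (LinearMap.ker φ) + 1 = finrank ℝ E :=
    Module.Dual.finrank_ker_add_one_of_ne_zero hφ
  have h3 : (finrank ℝ (LinearMap.ker φ) : ℝ) = (finrank ℝ E : ℝ) - 1 := by
    rw [← h2]; push_cast; ring
  rw [← h3]
  exact h1

lemma bal_sum_sq [FiniteDimensional ℝ E] {κ : Type*} [Fintype κ] [DecidableEq κ]
    (hκ : Fintype.card κ = 3) (e : E ≃ₗ[ℝ] (κ → ℝ)) {v : ι → E} (hv : ∀ i, ‖v i‖ = 1)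
    (heven : Even (Fintype.card ι)) {w : κ → ℝ} (hw : ∀ k, w k = -1 ∨ w k = 0 ∨ w k = 1)
    (hne : ∃ k, w k ≠ 0) (h0 : ∀ i, ∑ k, w k * (e (v i) k) ^ 2 = 0) : Bal v univ 2 := by
  have hfin : finrank ℝ E = 3 := by rw [e.finrank_eq, finrank_pi, hκ]
  have plane : ∀ k, (∀ i, e (v i) k = 0) → Bal v univ 2 := by
    intro k hk
    have h1 := bal_plane hv (φ := (LinearMap.proj k : (κ → ℝ) →ₗ[ℝ] ℝ) ∘ₗ e.toLinearMap) (by
      intro h
      have h2 := congrArg (fun f : E →ₗ[ℝ] ℝ => f (e.symm (Pi.single k 1))) h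
      simp at h2) (fun i => by simpa using hk i)
    rw [hfin] at h1
    refine h1.mono (by norm_num)
  by_cases hp : ∃ a, w a = 1
  swap
  · push Not at hp
    obtain ⟨k, hk⟩ := hne
    have hneg : ∀ k, w k ≤ 0 := by
      intro k
      rcases hw k with h | h | h
      · rw [h]; norm_num
      · rw [h]
      · exact absurd h (hp k)
    refine plane k fun i => ?_
    have h1 : ∑ k, -(w k * (e (v i) k) ^ 2) = 0 := by
      rw [sum_neg_distrib, h0 i, neg_zero]
    rw [sum_eq_zero_iff_of_nonneg (fun k _ => by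
      have := hneg k
      have h2 := sq_nonneg (e (v i) k)
      nlinarith)] at h1
    have h2 := h1 k (mem_univ _)
    rw [neg_eq_zero, mul_eq_zero] at h2
    exact pow_eq_zero_iff (two_ne_zero) |>.1 (h2.resolve_left hk)
  by_cases hq : ∃ b, w b = -1
  swap
  · push Not at hq
    obtain ⟨k, hk⟩ := hne
    have hpos : ∀ k, 0 ≤ w k := by
      intro k
      rcases hw k with h | h | h
      · exact absurd h (hq k)
      · rw [h]
      · rw [h]; norm_num
    refine plane k fun i => ?_
    have h1 := h0 i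
    rw [sum_eq_zero_iff_of_nonneg (fun k _ => mul_nonneg (hpos k) (sq_nonneg _))] at h1
    have h2 := h1 k (mem_univ _)
    rw [mul_eq_zero] at h2
    exact pow_eq_zero_iff (two_ne_zero) |>.1 (h2.resolve_left hk)
  obtain ⟨a, ha⟩ := hp
  obtain ⟨b, hb⟩ := hq
  have hab : a ≠ b := by
    rintro rfl
    rw [ha] at hb
    norm_num at hb
  -- the third index
  obtain ⟨c, hc⟩ : ∃ c, (univ.erase a).erase b = {c} := by
    rw [← card_eq_one, card_erase_of_mem (mem_erase.2 ⟨Ne.symm hab, mem_univ _⟩),
      card_erase_of_mem (mem_univ _), card_univ, hκ]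
  have hcm : c ∈ (univ.erase a).erase b := by rw [hc]; exact mem_singleton_self _
  have hcb : c ≠ b := (mem_erase.1 hcm).1
  have hca : c ≠ a := (mem_erase.1 (mem_erase.1 hcm).2).1
  have hthree : ∀ f : κ → ℝ, ∑ k, f k = f a + f b + f c := by
    intro f
    rw [← add_sum_erase univ f (mem_univ a),
      ← add_sum_erase (univ.erase a) f (mem_erase.2 ⟨Ne.symm hab, mem_univ _⟩), hc, sum_singleton]
    ring
  have hall : ∀ k, k ≠ a → k ≠ b → k = c := by
    intro k h1 h2
    have : k ∈ (univ.erase a).erase b := mem_erase.2 ⟨h2, mem_erase.2 ⟨h1, mem_univ _⟩⟩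
    rw [hc] at this
    exact mem_singleton.1 this
  -- coordinates
  have key : ∀ σ : ℝ, σ ^ 2 = 1 → ∀ i, v i =
      (e.symm.toLinearMap ∘ₗ LinearMap.pi (fun k : κ => if k = a then
        ((1 / 2 : ℝ) • (LinearMap.proj 2 : (Fin 3 → ℝ) →ₗ[ℝ] ℝ) - (σ / 2) • LinearMap.proj 0)
        else if k = b then
        ((1 / 2 : ℝ) • (LinearMap.proj 2 : (Fin 3 → ℝ) →ₗ[ℝ] ℝ) + (σ / 2) • LinearMap.proj 0)
        else LinearMap.proj 1))
        ![σ * (e (v i) b - e (v i) a), e (v i) c, e (v i) a + e (v i) b] := by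
    intro σ hσ i
    apply e.injective
    simp only [LinearMap.comp_apply, LinearEquiv.coe_coe, LinearEquiv.apply_symm_apply]
    ext k
    rw [LinearMap.pi_apply]
    by_cases h1 : k = a
    · rw [if_pos h1, h1]
      simp
      linear_combination (1 / 2 * (e (v i) b - e (v i) a)) * hσ
    · rw [if_neg h1]
      by_cases h2 : k = b
      · rw [if_pos h2, h2]
        simp
        linear_combination (-1 / 2 * (e (v i) b - e (v i) a)) * hσ
      · rw [if_neg h2, hall k h1 h2]
        simp
  have hodd : Odd ((univ : Finset ι).card + 3) := by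
    rw [card_univ]
    exact heven.add_odd (by decide)
  have hfinal : v ∈ closure {u : ι → E | (∀ i, ‖u i‖ = 1) ∧ OnCurve u univ 3} →
      Bal v univ 2 := by
    intro h
    exact (bal_curve (by norm_num) hodd h).mono (by norm_num)
  have hrel : ∀ i, e (v i) a ^ 2 - e (v i) b ^ 2 + w c * e (v i) c ^ 2 = 0 := by
    intro i
    have := h0 i
    rw [hthree, ha, hb] at this
    linarith
  rcases hw c with h | h | h
  · refine hfinal (subset_closure ⟨hv, cone1 (key (-1) (by norm_num)) (fun i => ?_) univ⟩)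
    have := hrel i
    rw [h] at this
    linarith
  · refine hfinal (cone0 hv (key 1 (by norm_num)) (fun i => ?_) univ)
    have := hrel i
    rw [h] at this
    linarith
  · refine hfinal (subset_closure ⟨hv, cone1 (key 1 (by norm_num)) (fun i => ?_) univ⟩)
    have := hrel i
    rw [h] at this
    linarith

/-- **Three-dimensional space.** An even number of unit vectors annihilated by a nonzero
quadratic form can be balanced at the cost `2`. -/
theorem bal_three [FiniteDimensional ℝ E] (hE : finrank ℝ E = 3) {v : ι → E}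
    (hv : ∀ i, ‖v i‖ = 1) (heven : Even (Fintype.card ι)) (Q : QuadraticForm ℝ E) (hQ : Q ≠ 0)
    (h : ∀ i, Q (v i) = 0) : Bal v univ 2 := by
  obtain ⟨w, hw, ⟨e⟩⟩ := Q.equivalent_one_zero_neg_one_weighted_sum_squared
  refine bal_sum_sq (by rw [Fintype.card_fin, hE]) e.toLinearEquiv hv heven hw ?_ ?_
  · by_contra hne
    push Not at hne
    apply hQ
    ext x
    rw [← e.map_app x, QuadraticMap.weightedSumSquares_apply]
    simp [hne]
  · intro i
    have := e.map_app (v i)
    rw [h i, QuadraticMap.weightedSumSquares_apply] at this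
    rw [← this]
    refine sum_congr rfl fun k _ => ?_
    simp only [smul_eq_mul]
    rw [sq]
    rfl

end Pool.Agent.W2helper39.BU
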