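import Pool.Agent.W2helper39.BU.Bal

set_option autoImplicit false
set_option linter.unusedSectionVars false

/-!
# The vertex criterion
-/

namespace Pool.Agent.W2helper39.BU

open Finset
open Pool.Agent.Helper976.Bal

variable {ι : Type*} [Fintype ι] [DecidableEq ι]
variable {E : Type*} [NormedAddCommGroup E] [InnerProductSpace ℝ E]

/-- If a point `x` of the cube with `∑ x i • v i = 0` is frozen outside `A` and has
`1 ≤ ∑ i ∈ A, x i ^ 2` or `1 ≤ ‖∑ i ∉ A, x i • v i‖`, there is a signing of squared norm at most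
`|A| - 1`. -/
theorem vertex_crit {v : ι → E} (hv : ∀ i, ‖v i‖ = 1) {x : ι → ℝ} (hx : ∀ i, |x i| ≤ 1)
    (h0 : ∑ i, x i • v i = 0) (A : Finset ι) (hA : ∀ i, i ∉ A → |x i| = 1)
    (hcrit : 1 ≤ ∑ i ∈ A, x i ^ 2 ∨ 1 ≤ ‖∑ i ∈ Aᶜ, x i • v i‖) :
    ∃ η : ι → ℝ, (∀ i, η i = 1 ∨ η i = -1) ∧
      ‖∑ i, η i • v i‖ ^ 2 ≤ (A.card : ℝ) - 1 := by
  obtain ⟨ε, hε⟩ := Finite.exists_min
    (fun ε : ι → Bool => ‖∑ i, (if ε i then (1 : ℝ) else -1) • v i‖ ^ 2)
  refine ⟨fun i => if ε i then (1 : ℝ) else -1, fun i => by by_cases h : ε i <;> simp [h], ?_⟩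
  set R := ‖∑ i, (if ε i then (1 : ℝ) else -1) • v i‖ ^ 2 with hR
  have hmin : ∀ η : ι → ℝ, Sgn η → R ≤ ‖∑ i, η i • v i‖ ^ 2 := by
    intro η hη
    have h1 := hε (fun i => decide (η i = 1))
    have e : ∀ i, (if (decide (η i = 1)) = true then (1 : ℝ) else -1) = η i := by
      intro i
      rcases hη i with h | h
      · simp [h]
      · rw [h]; norm_num
    simp only [e] at h1
    exact h1
  set b := ∑ i ∈ Aᶜ, x i • v i with hb
  have hlow : Low A v b R := by
    intro η hη
    have h1 := hmin (fun i => if i ∈ A then η i else x i) (by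
      intro i
      by_cases hi : i ∈ A
      · simpa [hi] using hη i
      · have := hA i hi
        simp only [hi, if_false]
        rcases abs_cases (x i) with h | h
        · left; linarith
        · right; linarith)
    have e : ∑ i, (if i ∈ A then η i else x i) • v i = b + ∑ i ∈ A, η i • v i := by
      rw [← sum_compl_add_sum A, hb]
      congr 1
      · refine sum_congr rfl fun i hi => ?_
        rw [if_neg (mem_compl.1 hi)]
      · refine sum_congr rfl fun i hi => ?_
        rw [if_pos hi]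
    rw [e] at h1
    exact h1
  have hsum : ∑ i ∈ A, x i • v i = -b := by
    rw [← sum_compl_add_sum A, ← hb] at h0
    exact (neg_eq_of_add_eq_zero_right h0).symm
  have e3 : ∑ i ∈ A, ‖v i‖ ^ 2 = A.card := by
    rw [sum_congr rfl (fun i _ => by rw [hv i])]
    simp
  set q := ∑ i ∈ A, x i ^ 2 with hq
  have hq0 : 0 ≤ q := sum_nonneg fun _ _ => sq_nonneg _
  have r1 : R ≤ A.card - q := by
    have h1 := low_round v x R A (fun i _ => hx i) b hlow
    rw [hsum, add_neg_cancel, norm_zero] at h1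
    have e4 : ∑ i ∈ A, (1 - x i ^ 2) * ‖v i‖ ^ 2 = A.card - q := by
      rw [sum_congr rfl (fun i _ => by rw [hv i]), hq]
      simp [sum_sub_distrib]
    rw [e4] at h1
    linarith
  rcases lt_or_ge q 1 with hq1 | hq1
  · have hb1 : 1 ≤ ‖b‖ := by
      rcases hcrit with h | h
      · linarith
      · exact h
    have h1 := low_quad v x R A b 1 hlow
    have e4 : ∑ i ∈ A, x i ^ 2 * ‖v i‖ ^ 2 = q :=
      sum_congr rfl fun i _ => by rw [hv i]; ring
    rw [hsum, e3, e4, norm_neg, inner_neg_right, real_inner_self_eq_norm_sq, ← hq] at h1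
    have hb2 : 1 ≤ ‖b‖ ^ 2 := by nlinarith
    have h2 : R * (1 + q) ≤ ((A.card : ℝ) - 1) * (1 + q) := by
      nlinarith [mul_nonneg (sub_nonneg.2 hb2) (sub_nonneg.2 hq1.le)]
    exact le_of_mul_le_mul_right h2 (by linarith)
  · linarith

end Pool.Agent.W2helper39.BU
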